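import Pool.Agent.Y44.HM.MainN
import Pool.Agent.TH54.BU.ExistsExt

/-!
# The torsion-free topological group with open centre `ℤ_p` (after helper54 and helper615)
-/

set_option autoImplicit false
set_option linter.style.haveILetI false

namespace Pool.Agent.Y44.HM

open Pool.Agent.TH54.BU Topology

section alg

variable {p Nw : ℕ} {A K : Type} [Group A] [Group K] {φ : A →* K} {z : A}

theorem Lim.tf (L : Lim p Nw φ z) (a : A) (ha : IsOfFinOrder a) : a = 1 := by
  by_cases hmem : a ∈ Subgroup.zpowers z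
  · obtain ⟨j, rfl⟩ := Subgroup.mem_zpowers_iff.1 hmem
    by_cases hj : j = 0
    · rw [hj, zpow_zero]
    · exfalso
      apply L.zinf
      rw [isOfFinOrder_iff_zpow_eq_one] at ha ⊢
      obtain ⟨n, hn, hn1⟩ := ha
      exact ⟨j * n, mul_ne_zero hj hn, by rw [zpow_mul, hn1]⟩
  · exfalso
    obtain ⟨m, k, hm, hk, hpk⟩ := L.pw a hmem
    have hk0 : k ≠ 0 := by
      rintro rfl
      exact hpk (dvd_zero _)
    apply L.zinf
    have h1 : IsOfFinOrder (z ^ k) := by rw [← hk]; exact ha.pow
    rw [isOfFinOrder_iff_zpow_eq_one] at h1 ⊢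
    obtain ⟨n, hn, hn1⟩ := h1
    exact ⟨k * n, mul_ne_zero hk0 hn, by rw [zpow_mul, hn1]⟩

theorem Lim.infinite (L : Lim p Nw φ z) : Infinite K := by
  by_contra hfin
  have hfin' : Finite K := not_infinite_iff_finite.1 hfin
  have hle : φ.ker ≤ Subgroup.center A := by
    rw [L.ker, Subgroup.zpowers_le, Subgroup.mem_center_iff]
    exact fun g => L.cen g
  have hkfin : φ.ker.FiniteIndex := by
    have : Finite φ.range := inferInstance
    exact Subgroup.finiteIndex_ker φ
  have hcfin : (Subgroup.center A).FiniteIndex := Subgroup.finiteIndex_of_le hle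
  obtain ⟨a, b, hab⟩ := L.nab
  apply hab
  have h1 : (MonoidHom.transferCenterPow A) (a * b) = (MonoidHom.transferCenterPow A) (b * a) := by
    rw [map_mul, map_mul]
    apply Subtype.ext
    exact (Subgroup.mem_center_iff.1 ((MonoidHom.transferCenterPow A) b).2 _)
  have h2 : (MonoidHom.transferCenterPow A) (a * b * (b * a)⁻¹) = 1 := by
    rw [map_mul, map_inv, h1, mul_inv_cancel]
  have h3 : (a * b * (b * a)⁻¹) ^ (Subgroup.center A).index = 1 := by
    rw [← MonoidHom.transferCenterPow_apply, h2]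
    rfl
  have h4 := L.tf _ (isOfFinOrder_iff_pow_eq_one.2
    ⟨_, Nat.pos_of_ne_zero hcfin.index_ne_zero, h3⟩)
  exact mul_inv_eq_one.1 h4

theorem Lim.exp (L : Lim p Nw φ z) (X : K) : X ^ (p ^ 2) = 1 := by
  obtain ⟨a, rfl⟩ := L.surj X
  have hz : ∀ k : ℤ, φ (z ^ k) = 1 := by
    intro k
    have : z ^ k ∈ φ.ker := by rw [L.ker]; exact ⟨k, rfl⟩
    exact this
  by_cases ha : a ∈ Subgroup.zpowers z
  · obtain ⟨k, rfl⟩ := Subgroup.mem_zpowers_iff.1 ha
    rw [hz, one_pow]
  · obtain ⟨m, k, hm, hk, _⟩ := L.pw a ha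
    have h1 : (φ a) ^ m = 1 := by rw [← map_pow, hk, hz]
    rcases hm with rfl | rfl
    · rw [pow_two, pow_mul, h1, one_pow]
    · exact h1

theorem Lim.center (L : Lim p Nw φ z) {X : K} (hX : ∀ Y, X * Y = Y * X) :
    X = 1 := by
  by_contra hne
  have hi := L.infinite
  obtain ⟨Y, hY⟩ := ((L.one X hne).union (L.two X hne)).infinite_compl.nonempty
  rw [Set.mem_compl_iff, Set.mem_union, not_or] at hY
  obtain ⟨h1, h2⟩ := hY
  have h1' : ∃ v ∈ Wn Nw, (fw X (ev X Y v)) ^ p = 1 := by
    by_contra h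
    exact h1 h
  have h2' : ∃ v : FreeGroup (Fin 2), (fw X (ev X Y v)) ^ p ≠ 1 := by
    by_contra h
    exact h2 h
  have h3 : ∀ W : K, fw X W = X * X := by
    intro W
    unfold fw
    rw [hX W, mul_assoc W, hX, mul_assoc, mul_assoc]
    simp [mul_assoc, hX]
  obtain ⟨v, _, h4⟩ := h1'
  obtain ⟨w, h5⟩ := h2'
  rw [h3] at h4 h5
  exact h5 h4

theorem continuous_ev {H : Type*} [Group H] [TopologicalSpace H] [IsTopologicalGroup H] (c : H)
    (v : FreeGroup (Fin 2)) : Continuous fun y : H => ev c y v := by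
  induction v using FreeGroup.induction_on with
  | C1 => simp only [map_one]; exact continuous_const
  | of i =>
    fin_cases i
    · show Continuous fun y : H => ev c y (FreeGroup.of 0)
      simp only [ev_zero]
      exact continuous_const
    · show Continuous fun y : H => ev c y (FreeGroup.of 1)
      simp only [ev_one]
      exact continuous_id
  | inv_of i h => simp only [map_inv]; exact h.inv
  | mul v w hv hw => simp only [map_mul]; exact hv.mul hw

/-- every Hausdorff group topology on a subgroup of `K` is discrete -/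
theorem Lim.discrete (hp : p.Prime) (hp2 : p ≠ 2) (L : Lim p Nw φ z) {H : Type*} [Group H]
    [TopologicalSpace H] [IsTopologicalGroup H] [T2Space H] (f : H →* K)
    (hf : Function.Injective f) : DiscreteTopology H := by
  rcases finite_or_infinite H with hfin | hinf
  · infer_instance
  -- an element of order `p ^ 2`
  obtain ⟨X0, hX0⟩ := exists_ne (1 : H)
  have hfX0 : f X0 ≠ 1 := fun h => hX0 (hf (h.trans (map_one f).symm))
  obtain ⟨Y, hY⟩ := ((L.two (f X0) hfX0).preimage hf.injOn).infinite_compl.nonempty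
  have hY' : ∃ v : FreeGroup (Fin 2), (fw (f X0) (ev (f X0) (f Y) v)) ^ p ≠ 1 := by
    by_contra h
    exact hY h
  obtain ⟨v0, hv0⟩ := hY'
  obtain ⟨c, hc⟩ : ∃ c : H, c = fw X0 (ev X0 Y v0) := ⟨_, rfl⟩
  have hcp : c ^ p ≠ 1 := by
    intro h
    apply hv0
    rw [← ev_map, ← fw_map, ← hc, ← map_pow, h, map_one]
  have hfc : f c ≠ 1 := by
    intro h
    apply hcp
    apply hf
    rw [map_pow, h, one_pow, map_one]
  have hc2 : (c * c) ^ p ≠ 1 := by
    intro h
    apply hcp
    have h1 : (c ^ p) ^ 2 = 1 := by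
      rw [← pow_mul, mul_comm, pow_mul, pow_two]
      exact h
    have h2 : (c ^ p) ^ p = 1 := by
      apply hf
      rw [← pow_mul, ← pow_two, map_pow, map_one]
      exact L.exp _
    have h3 : orderOf (c ^ p) ∣ 2 := orderOf_dvd_of_pow_eq_one h1
    have h4 : orderOf (c ^ p) ∣ p := orderOf_dvd_of_pow_eq_one h2
    have h5 : Nat.Coprime 2 p := (Nat.coprime_primes Nat.prime_two hp).2 hp2.symm
    have h6 := Nat.dvd_gcd h3 h4
    rw [h5.gcd_eq_one, Nat.dvd_one, orderOf_eq_one_iff] at h6
    exact h6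
  -- the closed sets
  let E : FreeGroup (Fin 2) → Set H := fun v => {y | (fw c (ev c y v)) ^ p = 1}
  have hE : ∀ v, IsClosed (E v) := by
    intro v
    have hcont : Continuous fun y : H => (fw c (ev c y v)) ^ p := by
      have h1 := continuous_ev c v
      unfold fw
      exact (((continuous_const.mul h1).mul continuous_const).mul h1.inv).pow p
    exact isClosed_singleton.preimage hcont
  have h1E : ∀ v, (1 : H) ∉ E v := by
    intro v h
    apply hc2
    have h1 : (fw c (ev c 1 v)) ^ p = 1 := h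
    have h2 : fw c (ev c 1 v) = c * c := by
      unfold fw
      have h3 := (ev_comm c v).eq
      rw [mul_assoc c, ← h3, mul_assoc, mul_assoc, mul_inv_cancel, mul_one]
    rwa [h2] at h1
  have hfinF : {y : H | ¬ ∃ v ∈ Wn Nw, (fw (f c) (ev (f c) (f y) v)) ^ p = 1}.Finite :=
    (L.one (f c) hfc).preimage hf.injOn
  have hC : IsClosed ((⋃ v ∈ Wn Nw, E v) ∪
      ({y : H | ¬ ∃ v ∈ Wn Nw, (fw (f c) (ev (f c) (f y) v)) ^ p = 1} \ {1})) :=
    ((Wn_finite Nw).isClosed_biUnion fun v _ => hE v).union (hfinF.subset Set.sdiff_subset).isClosed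
  have hone : ((⋃ v ∈ Wn Nw, E v) ∪
      ({y : H | ¬ ∃ v ∈ Wn Nw, (fw (f c) (ev (f c) (f y) v)) ^ p = 1} \ {1}))ᶜ = {1} := by
    ext y
    rw [Set.mem_compl_iff, Set.mem_union, not_or, Set.mem_singleton_iff]
    constructor
    · rintro ⟨h1, h2⟩
      by_contra hy
      apply h2
      refine ⟨?_, hy⟩
      rintro ⟨v, hv, h3⟩
      apply h1
      rw [Set.mem_iUnion₂]
      refine ⟨v, hv, ?_⟩
      show (fw c (ev c y v)) ^ p = 1
      apply hf
      rw [map_pow, fw_map, ev_map, h3, map_one]
    · rintro rfl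
      refine ⟨?_, fun h => h.2 rfl⟩
      rw [Set.mem_iUnion₂]
      rintro ⟨v, _, hv⟩
      exact h1E v hv
  refine discreteTopology_of_isOpen_singleton_one ?_
  rw [← hone]
  exact hC.isOpen_compl

end alg

/-- existence of the torsion-free extension with open centre `ℤ_p` -/
theorem Lim.exists_ext {p Nw : ℕ} [Fact p.Prime] {A K : Type} [Group A] [Group K] {φ : A →* K}
    {z : A} (L : Lim p Nw φ z) :
    ∃ (M : Type) (_ : Group M) (_ : TopologicalSpace M), IsTopologicalGroup M ∧ T2Space M ∧
      (∀ x : M, IsOfFinOrder x → x = 1) ∧ IsOpen (Subgroup.center M : Set M) ∧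
      Nonempty (Multiplicative ℤ_[p] ≃ₜ* Subgroup.center M) ∧
      ∃ χ : M ⧸ Subgroup.center M →* K, Function.Bijective χ := by
  have hp : p.Prime := Fact.out
  have hφ := L.surj
  have hker := L.ker
  have hz := L.cen
  have hzo := L.zinf
  letI : TopologicalSpace A := ⊥
  haveI : DiscreteTopology A := ⟨rfl⟩
  haveI hN : (hmN p z).Normal := hmN_normal hz
  haveI hcl : IsClosed (hmN p z : Set (A × Multiplicative ℤ_[p])) := hmN_closed hzo
  let M := (A × Multiplicative ℤ_[p]) ⧸ hmN p z
  let ι : Multiplicative ℤ_[p] →* M :=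
    (QuotientGroup.mk' (hmN p z)).comp (MonoidHom.inr A (Multiplicative ℤ_[p]))
  have hι0 : ∀ t, ι t = ((1, t) : A × Multiplicative ℤ_[p]) := fun t => rfl
  have hinj : Function.Injective ι := by
    intro s t hst
    rw [hι0, hι0, QuotientGroup.eq] at hst
    obtain ⟨k, h1, h2⟩ := mem_hmN.1 hst
    simp only [Prod.fst_mul, Prod.fst_inv, inv_one, mul_one, Prod.snd_mul, Prod.snd_inv] at h1 h2
    have hk : k = 0 := zpow_inj_of hzo (by rw [zpow_zero]; exact h1.symm)
    subst hk
    rw [Int.cast_zero, neg_zero] at h2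
    have h3 : s⁻¹ * t = 1 := Multiplicative.toAdd.injective h2
    exact inv_mul_eq_one.1 h3
  have hcont : Continuous ι := by
    have h1 : Continuous fun t : Multiplicative ℤ_[p] => ((1 : A), t) := by fun_prop
    exact continuous_quotient_mk'.comp h1
  have hopen : IsOpenMap ι := by
    have h1 : IsOpenMap fun t : Multiplicative ℤ_[p] => ((1 : A), t) := by
      intro U hU
      have : (fun t : Multiplicative ℤ_[p] => ((1 : A), t)) '' U = {(1 : A)} ×ˢ U := by
        ext ⟨a, t⟩
        simp only [Set.mem_image, Prod.mk.injEq, Set.mem_prod, Set.mem_singleton_iff]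
        constructor
        · rintro ⟨s, hs, rfl, rfl⟩
          exact ⟨rfl, hs⟩
        · rintro ⟨rfl, ht⟩
          exact ⟨t, ht, rfl, rfl⟩
      rw [this]
      exact (isOpen_discrete _).prod hU
    exact (QuotientGroup.isOpenMap_coe).comp h1
  have hι : IsOpenEmbedding ι := IsOpenEmbedding.of_continuous_injective_isOpenMap hcont hinj hopen
  have hc : ∀ (s : Multiplicative ℤ_[p]) (x : M), ι s * x = x * ι s := by
    intro s x
    obtain ⟨⟨a, t⟩, rfl⟩ := QuotientGroup.mk_surjective x
    rw [hι0, ← QuotientGroup.mk_mul, ← QuotientGroup.mk_mul, Prod.mk_mul_mk, Prod.mk_mul_mk,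
      one_mul, mul_one, mul_comm]
  have htf : ∀ x : M, IsOfFinOrder x → x = 1 := by
    intro x hx
    obtain ⟨⟨a, t⟩, rfl⟩ := QuotientGroup.mk_surjective x
    obtain ⟨m, hm, hxm⟩ := isOfFinOrder_iff_pow_eq_one.1 hx
    rw [← QuotientGroup.mk_pow, QuotientGroup.eq_one_iff] at hxm
    obtain ⟨k, h1, h2⟩ := mem_hmN.1 hxm
    rw [Prod.pow_mk] at h1 h2
    simp only at h1 h2
    rw [toAdd_pow, nsmul_eq_mul] at h2
    rw [QuotientGroup.eq_one_iff]
    have hm0 : (m : ℤ_[p]) ≠ 0 := by exact_mod_cast hm.ne'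
    by_cases ha : a ∈ Subgroup.zpowers z
    · obtain ⟨i, hi⟩ := ha
      simp only at hi
      have h3 : z ^ (i * m) = z ^ k := by
        rw [← h1, ← hi, zpow_mul, zpow_natCast]
      have h4 : i * m = k := zpow_inj_of hzo h3
      refine mem_hmN.2 ⟨i, hi.symm, ?_⟩
      simp only
      apply mul_left_cancel₀ hm0
      rw [h2, ← h4]
      push_cast
      ring
    · exfalso
      obtain ⟨m0, j, hm0', hj, hpj⟩ := L.pw a ha
      have h3 : z ^ (j * m) = z ^ (k * m0) := by
        rw [zpow_mul, ← hj, zpow_mul, ← h1, zpow_natCast, zpow_natCast, ← pow_mul, ← pow_mul,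
          mul_comm]
      have h4 : j * m = k * m0 := zpow_inj_of hzo h3
      have h7 : (m0 : ℤ_[p]) * Multiplicative.toAdd t = -(j : ℤ_[p]) := by
        apply mul_left_cancel₀ hm0
        have h5 : ((j : ℤ) : ℤ_[p]) * (m : ℤ_[p]) = (k : ℤ_[p]) * (m0 : ℤ_[p]) := by
          exact_mod_cast congrArg (Int.cast : ℤ → ℤ_[p]) h4
        calc (m : ℤ_[p]) * ((m0 : ℤ_[p]) * Multiplicative.toAdd t)
            = (m0 : ℤ_[p]) * ((m : ℤ_[p]) * Multiplicative.toAdd t) := by ring
          _ = (m0 : ℤ_[p]) * (-(k : ℤ_[p])) := by rw [h2]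
          _ = -((k : ℤ_[p]) * (m0 : ℤ_[p])) := by ring
          _ = -((j : ℤ_[p]) * (m : ℤ_[p])) := by rw [h5]
          _ = (m : ℤ_[p]) * (-(j : ℤ_[p])) := by ring
      have hm0n : ‖(m0 : ℤ_[p])‖ < 1 := by
        have hd : (p : ℤ) ∣ (m0 : ℤ) := by
          rcases hm0' with h | h
          · rw [h]
          · rw [h]
            exact ⟨p, by push_cast; ring⟩
        have := (PadicInt.norm_int_lt_one_iff_dvd (p := p) (m0 : ℤ)).2 hd
        exact_mod_cast this
      apply hpj
      have h8 : ‖((j : ℤ) : ℤ_[p])‖ < 1 := by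
        rw [← norm_neg, ← h7, norm_mul]
        have h9 := PadicInt.norm_le_one (Multiplicative.toAdd t)
        have h11 : (0 : ℝ) ≤ ‖(m0 : ℤ_[p])‖ := norm_nonneg _
        nlinarith [norm_nonneg (Multiplicative.toAdd t)]
      exact PadicInt.norm_int_lt_one_iff_dvd j |>.1 h8
  have hcen : ∀ x : M, x ∈ Subgroup.center M ↔ x ∈ ι.range := by
    intro x
    constructor
    · intro hx
      obtain ⟨⟨a, t⟩, rfl⟩ := QuotientGroup.mk_surjective x
      have ha : ∀ b, a * b = b * a := by
        intro b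
        have h1 := Subgroup.mem_center_iff.1 hx (((b, 1) : A × Multiplicative ℤ_[p]) : M)
        rw [← QuotientGroup.mk_mul, ← QuotientGroup.mk_mul, QuotientGroup.eq] at h1
        obtain ⟨k, h2, h3⟩ := mem_hmN.1 h1
        simp only [Prod.mk_mul_mk, Prod.fst_mul, Prod.fst_inv, Prod.snd_mul, Prod.snd_inv, one_mul,
          mul_one, inv_mul_cancel] at h2 h3
        rw [toAdd_one, eq_comm, neg_eq_zero] at h3
        have hk : k = 0 := by exact_mod_cast h3
        rw [hk, zpow_zero, inv_mul_eq_one] at h2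
        exact h2.symm
      have haK : φ a = 1 := by
        apply L.center
        intro Y
        obtain ⟨b, rfl⟩ := hφ Y
        rw [← map_mul, ha, map_mul]
      have hak : a ∈ φ.ker := haK
      rw [hker] at hak
      obtain ⟨k, hk⟩ := hak
      simp only at hk
      refine ⟨t * Multiplicative.ofAdd (k : ℤ_[p]), ?_⟩
      rw [hι0, QuotientGroup.eq]
      refine mem_hmN.2 ⟨k, ?_, ?_⟩
      · simp [hk]
      · simp only [Prod.snd_mul, Prod.snd_inv]
        rw [mul_inv_rev, inv_mul_cancel_right, toAdd_inv, toAdd_ofAdd]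
    · rintro ⟨s, rfl⟩
      rw [Subgroup.mem_center_iff]
      intro x
      exact (hc s x).symm
  have hrange : (Subgroup.center M : Set M) = Set.range ι := by
    ext x
    rw [SetLike.mem_coe, hcen]; rfl
  refine ⟨M, inferInstance, inferInstance, inferInstance, inferInstance, htf, ?_, ?_, ?_⟩
  · rw [hrange]
    exact hι.isOpen_range
  · let ι' : Multiplicative ℤ_[p] →* Subgroup.center M :=
      ι.codRestrict _ fun s => (hcen _).2 ⟨s, rfl⟩
    have h1 : Function.Bijective ι' := by
      constructor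
      · intro s t hst
        exact hinj (congrArg Subtype.val hst)
      · rintro ⟨x, hx⟩
        obtain ⟨s, hs⟩ := (hcen x).1 hx
        exact ⟨s, Subtype.ext hs⟩
    have h2 : Continuous ι' := hcont.subtype_mk _
    have h3 : IsOpenMap ι' := by
      intro U hU
      have h4 : IsOpen (ι '' U) := hopen U hU
      have h5 : ι' '' U = Subtype.val ⁻¹' (ι '' U) := by
        ext x
        constructor
        · rintro ⟨s, hs, rfl⟩
          exact ⟨s, hs, rfl⟩
        · rintro ⟨s, hs, hx⟩
          exact ⟨s, hs, Subtype.ext hx⟩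
      rw [h5]
      exact h4.preimage continuous_subtype_val
    let e : Multiplicative ℤ_[p] ≃* Subgroup.center M := MulEquiv.ofBijective ι' h1
    refine ⟨{ e with continuous_toFun := h2, continuous_invFun := ?_ }⟩
    have h6 : Continuous e.toEquiv.symm := by
      rw [continuous_def]
      intro U hU
      have h7 : e.toEquiv.symm ⁻¹' U = ι' '' U := by
        ext x
        constructor
        · intro hx
          exact ⟨e.symm x, hx, e.apply_symm_apply x⟩
        · rintro ⟨s, hs, rfl⟩
          have : e.symm (ι' s) = s := e.symm_apply_apply s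
          change e.symm (ι' s) ∈ U
          rw [this]; exact hs
      rw [h7]
      exact h3 U hU
    exact h6
  · let ψ : M →* K :=
      QuotientGroup.lift (hmN p z) (φ.comp (MonoidHom.fst A (Multiplicative ℤ_[p]))) (by
        intro x hx
        obtain ⟨k, h1, -⟩ := mem_hmN.1 hx
        have : x.1 ∈ φ.ker := by
          rw [hker, h1]; exact ⟨k, rfl⟩
        exact this)
    let χ : M ⧸ Subgroup.center M →* K :=
      QuotientGroup.lift (Subgroup.center M) ψ (by
        intro x hx
        obtain ⟨s, rfl⟩ := (hcen x).1 hx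
        change φ 1 = 1
        exact map_one φ)
    refine ⟨χ, ?_, ?_⟩
    · rw [injective_iff_map_eq_one]
      intro x hx
      obtain ⟨x, rfl⟩ := QuotientGroup.mk_surjective x
      obtain ⟨⟨a, t⟩, rfl⟩ := QuotientGroup.mk_surjective x
      have h1 : φ a = 1 := hx
      have hak : a ∈ φ.ker := h1
      rw [hker] at hak
      obtain ⟨k, hk⟩ := hak
      simp only at hk
      rw [QuotientGroup.eq_one_iff, hcen]
      refine ⟨t * Multiplicative.ofAdd (k : ℤ_[p]), ?_⟩
      rw [hι0, QuotientGroup.eq]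
      refine mem_hmN.2 ⟨k, ?_, ?_⟩
      · simp [hk]
      · simp only [Prod.snd_mul, Prod.snd_inv]
        rw [mul_inv_rev, inv_mul_cancel_right, toAdd_inv, toAdd_ofAdd]
    · intro q
      obtain ⟨a, rfl⟩ := hφ q
      exact ⟨((((a, 1) : A × Multiplicative ℤ_[p]) : M) : M ⧸ Subgroup.center M), rfl⟩

end Pool.Agent.Y44.HM
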