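import Pool.Agent.TH54.BU.Step2
import Pool.Agent.Y44.HM.MixN

/-!
# One step of the construction with exponent `p` or `p ^ 2` (after helper54's `Step2`)
-/

set_option autoImplicit false

namespace Pool.Agent.Y44.HM

open Pool.Agent.TH54.BU

/-- the conclusion of one step: the short elements of infinite order are killed with the
exponent `n`, which is `p` or `p ^ 2` -/
structure StepN {A G : Type} [Group A] [Group G] (φ : A →* G) (z : A) (n : ℕ)
    (p K B T R0 : ℕ) (H : GH G) (N : Subgroup A) (M : Subgroup G) [M.Normal] : Prop where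
  map : N.map φ = M
  inj : ∀ a ∈ N, φ a = 1 → a = 1
  tz : ∀ a : A, IsOfFinOrder ((φ a : G) : G ⧸ M) → φ a ∉ M →
    ∃ (m : ℕ) (k : ℤ), (m = p ∨ m = p ^ 2) ∧ a ^ m * z ^ (-k) ∈ N ∧ ¬ (p : ℤ) ∣ k
  tzs : ∀ a : A, ¬ IsOfFinOrder (φ a) → H.len (φ a) ≤ 2 * R0 + 20 →
    IsOfFinOrder ((φ a : G) : G ⧸ M) → ∃ k : ℤ, a ^ n * z ^ (-k) ∈ N ∧ ¬ (p : ℤ) ∣ k
  key : ∀ x y : G, IsOfFinOrder x → x ≠ 1 → H.len x ≤ 1 → R0 ≤ H.len y →
    (∀ m ∈ M, H.len y ≤ H.len (m * y)) → ¬ IsOfFinOrder ((x * y * x * y⁻¹ : G) : G ⧸ M)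
  len : ∃ F : GH (G ⧸ M), F.D = 4 ∧ F.Stab T ∧ F.Acy K B ∧
    (∀ g : G, F.len (g : G ⧸ M) ≤ (H.len g + 1) / 2) ∧
    ((∀ R : ℕ, {g : G | H.len g ≤ R}.Finite) → ∀ R : ℕ, {q : G ⧸ M | F.len q ≤ R}.Finite)
  small : ∀ g : G, H.len g ≤ 4 * R0 + 4 → g ∈ M → g = 1
  kill : ∀ g : G, H.len g ≤ 1 → IsOfFinOrder (g : G ⧸ M)

/-- the exponent of a conjugate of a power of `x`, in terms of its length -/
theorem natAbs_le_conj {G : Type} [Group G] (H : GH G) {T : ℕ} (hS : H.Stab T) {x : G}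
    (hx : ¬ IsOfFinOrder x) {u g : G} {k : ℤ} (hg : g = u * x ^ k * u⁻¹) :
    k.natAbs ≤ T * H.len g := by
  by_contra hcon
  push Not at hcon
  obtain ⟨m, hm⟩ : ∃ m, m = 2 * (T * H.len u) + 1 := ⟨_, rfl⟩
  have h1 := hS x hx (k.natAbs * m)
  have h2 : H.len (x ^ (k.natAbs * m)) = H.len (x ^ (k * m)) := by
    rcases Int.natAbs_eq k with h | h
    · conv_rhs => rw [h]
      rw [← Nat.cast_mul, zpow_natCast]
    · conv_rhs => rw [h]
      rw [neg_mul, zpow_neg, H.len_inv, ← Nat.cast_mul, zpow_natCast]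
  have h3 : x ^ (k * m) = u⁻¹ * g ^ m * u := by
    rw [hg, conj_pow, ← zpow_natCast (x ^ k), ← zpow_mul]
    group
  have h4 := H.len_mul (u⁻¹ * g ^ m) u
  have h5 := H.len_mul u⁻¹ (g ^ m)
  rw [H.len_inv] at h5
  have h6 : H.len (g ^ m) ≤ m * H.len g := by
    clear hm h1 h2 h3 h4 h5
    induction m with
    | zero => simp [H.len_one]
    | succ m ih =>
      have h := H.len_mul (g ^ m) g
      rw [pow_succ]
      have e1 : (m + 1) * H.len g = m * H.len g + H.len g := by ring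
      omega
  rw [h2, h3] at h1
  have h7 : T * H.len (u⁻¹ * g ^ m * u) ≤ T * (m * H.len g + 2 * H.len u) :=
    Nat.mul_le_mul_left _ (by omega)
  have e2 : T * (m * H.len g + 2 * H.len u) = T * H.len g * m + 2 * (T * H.len u) := by ring
  have h8 : (T * H.len g + 1) * m ≤ k.natAbs * m := Nat.mul_le_mul_right _ hcon
  have e3 : (T * H.len g + 1) * m = T * H.len g * m + m := by ring
  omega

theorem stepN : ∃ K B T R0 : ℕ, 500 ≤ K ∧ 8 * K + 20 ≤ B ∧ 1 ≤ T ∧ 2 ≤ R0 ∧ ∃ p0 : ℕ,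
    ∀ p : ℕ, p.Prime → p0 ≤ p → ∀ n : ℕ, (n = p ∨ n = p ^ 2) →
    ∀ (A G : Type) [Group A] [Group G] (φ : A →* G),
    Function.Surjective φ → ∀ z : A, (∀ a, a * z = z * a) → φ.ker = Subgroup.zpowers z →
    (∀ a : A, IsOfFinOrder (φ a) → φ a ≠ 1 →
      ∃ (m : ℕ) (k : ℤ), (m = p ∨ m = p ^ 2) ∧ a ^ m = z ^ k ∧ ¬ (p : ℤ) ∣ k) →
    ∀ H : GH G, H.D = 4 → H.Stab T → H.Acy K B →
    ∃ (N : Subgroup A) (_ : N.Normal) (M : Subgroup G) (_ : M.Normal),
      StepN φ z n p K B T R0 H N M := by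
  obtain ⟨De, hDe⟩ := exists_cone 4 3250
  obtain ⟨QD, hQD⟩ : ∃ x, x = 2 * De + 2 := ⟨_, rfl⟩
  obtain ⟨Nb, hNb⟩ : ∃ x, x = (2 * (101 * QD + 100) + 3) ^ 2 := ⟨_, rfl⟩
  obtain ⟨B, hB⟩ : ∃ x, x = 8 * (Nb + 3) * 500 + 2 := ⟨_, rfl⟩
  obtain ⟨θ, hθ⟩ : ∃ x, x = B + 200 * (220 + 3250 + 4 + 1) := ⟨_, rfl⟩
  obtain ⟨Θ, hΘ⟩ := hDe θ
  obtain ⟨Cm, hCm⟩ := mixN 4 3250 θ Θ De B
  obtain ⟨Te, hTe⟩ : ∃ x, x = 2 * (θ + 2 * Θ + 100 * (4 + 3250 + 1) + 2) := ⟨_, rfl⟩
  obtain ⟨κ, hκ1, hκ2⟩ := exists_kappa Cm (QD + 2) (100 * QD + 100) Te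
  obtain ⟨T, hT⟩ : ∃ x, x = κ * Te := ⟨_, rfl⟩
  rw [← hT] at hκ2
  have hκ : 2 ≤ κ := by omega
  have hT1 : 1 ≤ T := by
    rw [hT]
    exact Nat.mul_pos (by omega) (by omega)
  obtain ⟨n0, hn0⟩ := hCm T
  obtain ⟨th, hth⟩ : ∃ x, x = T * (2 * 3250 + θ + 1) := ⟨_, rfl⟩
  obtain ⟨R0, hR0⟩ : ∃ x, x = 100 * (2 * B + θ + 400 * (4 + 3250 + 1)) + 2 := ⟨_, rfl⟩
  obtain ⟨p0, hp0⟩ : ∃ x, x = n0 + 1 + (40 * th + 1) + (24 * th + T * (2 * 3250 + 1) +
    4 * (T * Θ + 1)) + (4 * T * (1000 * (4 + 3250 + θ + 1)) + 4 * T * Θ + 48 * th + 4) +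
    T * (4 * R0 + 4 + 3250) + 3 + T * (2 * R0 + 20) +
      (T * (2 * R0 + 20 + θ + 100 * (4 + 3250 + 1)) + T * Θ +
      T * (2 * 3250 + 1) + 24 * th + 1) + (2 * T * Θ + 24 * th + 10 * T * (2 * 3250 + 1) +
      4 * T * (100 * (2 * B + θ + 400 * (4 + 3250 + 1))) + 4) := ⟨_, rfl⟩
  refine ⟨500, B, T, R0, le_rfl, ?_, hT1, ?_, p0, ?_⟩
  · omega
  · omega
  intro p hp hpp n hnp A G _ _ φ hφ z hz hker htz H hD hS hA
  have hp3 : 3 ≤ p := by omega
  have hodd : Odd (p ^ 2) := (hp.odd_of_ne_two (by omega)).pow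
  have hpn : p ≤ n := by
    rcases hnp with h | h
    · exact h.ge
    · rw [h]
      exact Nat.le_self_pow (by norm_num) p
  have hpdn : (p : ℤ) ∣ n := by
    rcases hnp with h | h
    · rw [h]
    · rw [h]
      exact ⟨p, by push_cast; ring⟩
  have hz1 : φ z = 1 := by
    have : z ∈ φ.ker := by rw [hker]; exact Subgroup.mem_zpowers z
    exact this
  have hzz : ∀ k : ℤ, φ (z ^ k) = 1 := by intro k; rw [map_zpow, hz1, one_zpow]
  have hzc : ∀ (a : A) (k : ℤ), a * z ^ k = z ^ k * a := fun a k => Commute.zpow_right (hz a) k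
  have hlift : ∀ {a b : A}, φ a = φ b → ∃ k : ℤ, a = b * z ^ k := by
    intro a b h
    have h1 : b⁻¹ * a ∈ φ.ker := by
      rw [MonoidHom.mem_ker, map_mul, map_inv, h, inv_mul_cancel]
    rw [hker] at h1
    obtain ⟨k, hk⟩ := h1
    exact ⟨k, by rw [show z ^ k = b⁻¹ * a from hk, mul_inv_cancel_left]⟩
  have htor : Tor G (p ^ 2) := by
    intro g hg
    obtain ⟨a, rfl⟩ := hφ g
    by_cases h1 : φ a = 1
    · rw [h1, one_pow]
    · obtain ⟨m, k, hm, hk, _⟩ := htz a hg h1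
      have h2 : (φ a) ^ m = 1 := by rw [← map_pow, hk, hzz]
      rcases hm with rfl | rfl
      · rw [pow_two, pow_mul, h2, one_pow]
      · exact h2
  have hK : 100 * H.D + 100 ≤ 500 := by rw [hD]
  obtain ⟨L, hprim, hxlen, hshort⟩ := exists_LS' H hK hS hA hodd htor 220 3250 θ
    (by rw [hD]) (by rw [hD, hθ])
  have hthr : L.thr = th := hth.symm
  -- the relators
  choose a ha using fun i => hφ (L.x i)
  set r : L.ι → A := fun i => a i ^ n * z⁻¹ with hr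
  have hφr : ∀ i, φ (r i) = L.x i ^ n := by
    intro i
    rw [hr]
    simp only [map_mul, map_pow, map_inv, hz1, ha, inv_one, mul_one]
  have hrc : ∀ i b, φ b ∈ Subgroup.zpowers (L.x i) → b * r i = r i * b := by
    rintro i b ⟨k, hk⟩
    have hk' : φ b = φ (a i ^ k) := by
      rw [map_zpow, ha]
      exact hk.symm
    obtain ⟨j, rfl⟩ := hlift hk'
    have c1 : Commute (a i ^ k) (r i) := by
      rw [hr]
      refine Commute.mul_right ?_ ?_
      · exact ((Commute.refl (a i)).zpow_left k).pow_right n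
      · exact Commute.inv_right (hz _)
    have c2 : Commute (z ^ j) (r i) := (hzc (r i) j).symm
    exact (c1.mul_left c2).eq
  set N := Subgroup.normalClosure (Set.range r) with hN
  set M := Subgroup.normalClosure (Set.range fun i => L.x i ^ n) with hM
  have hNn : N.Normal := Subgroup.normalClosure_normal
  have hMn : M.Normal := Subgroup.normalClosure_normal
  have hn1 : 40 * L.thr + 1 ≤ n := by rw [hthr]; omega
  have hgr := fun (b : A) (hb : b ∈ Subgroup.normalClosure (Set.range r)) (hb1 : b ≠ 1) (y : G) =>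
    L.gr_ext φ hφ hn1 r hφr hrc hb hb1 y
  have F : L.Fil n M := L.fil hn1
  have hmap : N.map φ = M := by
    rw [hN, Subgroup.map_normalClosure _ φ hφ, hM]
    congr 1
    rw [← Set.range_comp]
    congr 1
    funext i
    exact hφr i
  have hxM : ∀ i, L.x i ^ n ∈ M := fun i => Subgroup.subset_normalClosure ⟨i, rfl⟩
  have hrN : ∀ i, r i ∈ N := fun i => Subgroup.subset_normalClosure ⟨i, rfl⟩
  obtain ⟨E, hED, hcone⟩ := hΘ G H T L (by rw [hD])
  obtain ⟨Q, hQD', hQ1, hQ2⟩ := L.exists_quo F hcone hT1 (by rw [hthr]; omega)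
  have hQDQ : Q.D = QD := by rw [hQD', hED, hQD]
  have S : Setup L 500 B (p ^ 2) 220 Θ n E M Q :=
    { hK := hK, stab := hS, hT := hT1, acy := hA, odd := hodd, tor := htor, prim := hprim
      xlen := hxlen, hL1 := by omega, short := hshort, fil := F, cone := hcone
      le := hQ1, lift := hQ2, hQD := hQD' }
  obtain ⟨hQS, hQT⟩ := S.stab_tor (by rw [hthr, hD]; omega)
  have ha5 : ∀ i, ((a i : A) : A ⧸ N) ^ n = (z : A ⧸ N) := by
    intro i
    have := (QuotientGroup.eq_one_iff (N := N) (r i)).2 (hrN i)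
    rw [hr] at this
    simp only [QuotientGroup.mk_mul, QuotientGroup.mk_pow, QuotientGroup.mk_inv] at this
    exact mul_inv_eq_one.1 this
  have h6 : ∀ w : A ⧸ N, Commute w (z : A ⧸ N) := by
    intro w
    obtain ⟨w, rfl⟩ := QuotientGroup.mk_surjective w
    show (w : A ⧸ N) * (z : A ⧸ N) = (z : A ⧸ N) * w
    rw [← QuotientGroup.mk_mul, ← QuotientGroup.mk_mul, hz]
  -- the powers of elements over conjugates of powers of the `x i`
  have hsh : ∀ (b v : A) (i : L.ι) (k : ℤ), φ b = φ v * L.x i ^ k * (φ v)⁻¹ →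
      ∃ j : ℤ, ∀ (m : ℕ) (l : ℤ), k * m = n * l →
        ((b : A) : A ⧸ N) ^ m = (z : A ⧸ N) ^ (l + j * m) := by
    intro b v i k hk
    have h3 : φ b = φ (v * a i ^ k * v⁻¹) := by
      rw [hk, map_mul, map_mul, map_inv, map_zpow, ha]
    obtain ⟨j, rfl⟩ := hlift h3
    refine ⟨j, fun m l hml => ?_⟩
    simp only [QuotientGroup.mk_mul, QuotientGroup.mk_inv, QuotientGroup.mk_zpow]
    have e1 : ((v : A ⧸ N) * (a i : A ⧸ N) ^ k * (v : A ⧸ N)⁻¹) ^ m =
        (z : A ⧸ N) ^ l := by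
      rw [conj_pow, ← zpow_natCast, ← zpow_mul, hml, zpow_mul, zpow_natCast, ha5,
        ((h6 (v : A ⧸ N)).zpow_right l).eq, mul_assoc, mul_inv_cancel, mul_one]
    rw [((h6 _).zpow_right j).mul_pow, e1, ← zpow_natCast, ← zpow_mul, ← zpow_add]
  have hkey : ∀ (b : A) (m : ℕ) (k : ℤ), ((b : A) : A ⧸ N) ^ m = (z : A ⧸ N) ^ k →
      b ^ m * z ^ (-k) ∈ N := by
    intro b m k hk
    rw [← QuotientGroup.eq_one_iff]
    rw [QuotientGroup.mk_mul, QuotientGroup.mk_pow, hk, QuotientGroup.mk_zpow, zpow_neg,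
      mul_inv_cancel]
  have htzs : ∀ b : A, ¬ IsOfFinOrder (φ b) → H.len (φ b) ≤ 2 * R0 + 20 →
      IsOfFinOrder ((φ b : G) : G ⧸ M) →
      ∃ k : ℤ, b ^ n * z ^ (-k) ∈ N ∧ ¬ (p : ℤ) ∣ k := by
    intro b h1 h2 h3
    obtain ⟨i, u, k, hk⟩ := S.bdd (R := 2 * R0 + 20) (by rw [hthr, hD]; omega) h1 h2 h3
    have hk0 : k ≠ 0 := by
      rintro rfl
      apply h1
      rw [hk, zpow_zero, mul_one, mul_inv_cancel]
      exact IsOfFinOrder.one
    have hkp : k.natAbs < p := by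
      have h4 := natAbs_le_conj H hS (hprim i).1 hk
      have h5 : T * H.len (φ b) ≤ T * (2 * R0 + 20) := Nat.mul_le_mul_left _ h2
      omega
    obtain ⟨v, rfl⟩ := hφ u
    obtain ⟨j, hj⟩ := hsh b v i k hk
    refine ⟨_, hkey b n _ (hj n k (by ring)), ?_⟩
    intro hdvd
    have h7 : (p : ℤ) ∣ k := by
      have := dvd_sub hdvd (hpdn.mul_left j)
      simpa using this
    have h8 := Int.natAbs_dvd_natAbs.2 h7
    have h9 := Nat.le_of_dvd (Int.natAbs_pos.2 hk0) h8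
    simp only [Int.natAbs_natCast] at h9
    omega
  have htz' : ∀ b : A, IsOfFinOrder ((φ b : G) : G ⧸ M) → φ b ∉ M →
      ∃ (m : ℕ) (k : ℤ), (m = p ∨ m = p ^ 2) ∧ b ^ m * z ^ (-k) ∈ N ∧ ¬ (p : ℤ) ∣ k := by
    intro b hb hbM
    obtain ⟨g, hg, hg2⟩ := hQT _ hb
    -- replace `b` by an element over `g`
    have h1 : φ b * g⁻¹ ∈ M := by
      have := QuotientGroup.eq.1 hg
      have h2 := hMn.conj_mem _ this g
      rwa [show g * (g⁻¹ * φ b) * g⁻¹ = φ b * g⁻¹ by group] at h2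
    rw [← hmap] at h1
    obtain ⟨n1, hnN, hn⟩ := h1
    have h2 : φ (n1⁻¹ * b) = g := by
      rw [map_mul, map_inv, hn]
      group
    have hbn : (b : A ⧸ N) = ((n1⁻¹ * b : A) : A ⧸ N) := by
      apply QuotientGroup.eq.2
      have := hNn.conj_mem _ (N.inv_mem hnN) b⁻¹
      rwa [inv_inv, mul_assoc] at this
    have hgM : g ∉ M := by
      intro h
      apply hbM
      have h3 : φ b = φ n1 * g := by rw [← h2, map_mul, map_inv]; group
      rw [h3]
      refine M.mul_mem ?_ h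
      rw [← hmap]
      exact ⟨n1, hnN, rfl⟩
    rcases hg2 with hg2 | ⟨i, u, k, hk⟩
    · have hg1 : g ≠ 1 := fun h => hgM (h ▸ M.one_mem)
      obtain ⟨m, k, hm, hk1, hk2⟩ := htz (n1⁻¹ * b) (by rw [h2]; exact hg2) (by rw [h2]; exact hg1)
      refine ⟨m, k, hm, hkey b m k ?_, hk2⟩
      rw [hbn, ← QuotientGroup.mk_pow, hk1, QuotientGroup.mk_zpow]
    · obtain ⟨v, rfl⟩ := hφ u
      obtain ⟨j, hj⟩ := hsh (n1⁻¹ * b) v i k (by rw [h2, hk])
      have hnk : ¬ (n : ℤ) ∣ k := by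
        rintro ⟨l, rfl⟩
        apply hgM
        rw [hk, zpow_mul, zpow_natCast]
        exact hMn.conj_mem _ (M.zpow_mem (hxM i) l) _
      by_cases hpk : (p : ℤ) ∣ k
      · obtain ⟨l, rfl⟩ := hpk
        have hn2 : n = p ^ 2 := by
          rcases hnp with h | h
          · exact absurd ⟨l, by rw [h]⟩ hnk
          · exact h
        have hl : ¬ (p : ℤ) ∣ l := by
          rintro ⟨l', rfl⟩
          apply hnk
          exact ⟨l', by rw [hn2]; push_cast; ring⟩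
        refine ⟨p, _, Or.inl rfl, hkey b p _ (by
          rw [hbn]
          exact hj p l (by rw [hn2]; push_cast; ring)), ?_⟩
        intro hdvd
        apply hl
        have := dvd_sub hdvd (Dvd.intro_left j rfl : (p : ℤ) ∣ j * p)
        simpa using this
      · refine ⟨n, _, hnp, hkey b n _ (by rw [hbn]; exact hj n k (by ring)), ?_⟩
        intro hdvd
        apply hpk
        have := dvd_sub hdvd (hpdn.mul_left j)
        simpa using this
  have hord : ∀ g : G ⧸ M, IsOfFinOrder g → g ≠ 1 → n0 < orderOf g := by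
    intro q hq hq1
    obtain ⟨g, rfl⟩ := QuotientGroup.mk_surjective q
    obtain ⟨b, rfl⟩ := hφ g
    have hbM : φ b ∉ M := fun h => hq1 ((QuotientGroup.eq_one_iff _).2 h)
    obtain ⟨m, k, hm, hk, _⟩ := htz' b hq hbM
    have h1 : ((φ b : G) : G ⧸ M) ^ m = 1 := by
      rw [← QuotientGroup.mk_pow, QuotientGroup.eq_one_iff, ← hmap]
      exact ⟨_, hk, by rw [map_mul, hzz, mul_one, map_pow]⟩
    have h2 : orderOf ((φ b : G) : G ⧸ M) ∣ p ^ 2 := by
      refine (orderOf_dvd_of_pow_eq_one h1).trans ?_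
      rcases hm with h | h
      · rw [h, pow_two]; exact Dvd.intro _ rfl
      · rw [h]
    obtain ⟨e, he, he2⟩ := (Nat.dvd_prime_pow hp).1 h2
    have he0 : e ≠ 0 := by
      rintro rfl
      rw [pow_zero, orderOf_eq_one_iff] at he2
      exact hq1 he2
    rw [he2]
    have h3 : p ≤ p ^ e := Nat.le_self_pow he0 p
    omega
  have hmix := hn0 G H L 500 (p ^ 2) 220 n E M Q (by rw [hD]) (by rw [hED]) (by omega) hord S
  rw [hQDQ, ← hNb] at hmix
  have hacyQ := Q.mixA (by rw [hQDQ]) hQS hmix (κ * 500)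
  obtain ⟨F', hF'D, hF'⟩ := rescale Q (κ := κ) (by omega) (by rw [hQDQ]; omega)
  have hceil : ∀ q, Q.len q ≤ κ * F'.len q := by
    intro q
    rw [hF']
    have := Nat.div_add_mod (Q.len q + κ - 1) κ
    have h2 := Nat.mod_lt (Q.len q + κ - 1) (show 0 < κ by omega)
    omega
  refine ⟨N, hNn, M, hMn, ?_⟩
  refine
    { map := hmap
      inj := ?_
      tz := htz'
      tzs := htzs
      key := ?_
      len := ⟨F', hF'D, ?_, ?_, ?_, ?_⟩
      small := ?_
      kill := ?_ }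
  · intro b hb hb1
    by_contra hne
    obtain ⟨i, u, hiu⟩ := hgr b hb hne 1
    rw [hb1, mul_one, L.s_self, abs_zero, hthr] at hiu
    omega
  · intro x y hx hx1 hxl hy hmin
    exact S.key (by rw [hthr, hD]; omega) hx hx1 hxl (by rw [hD]; omega) hmin
  · intro q hq m
    have h1 := hQS q hq m
    have h2 : 2 * (θ + 2 * Θ + 100 * (H.D + 3250 + 1) + 2) = Te := by rw [hD, hTe]
    rw [h2] at h1
    calc m ≤ Te * Q.len (q ^ m) := h1
      _ ≤ Te * (κ * F'.len (q ^ m)) := Nat.mul_le_mul_left _ (hceil _)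
      _ = T * F'.len (q ^ m) := by rw [hT]; ring
  · intro q hq g hg
    have hq1 : κ * (B - 1) + 1 ≤ Q.len q := by
      rw [hF'] at hq
      by_contra hcon
      push Not at hcon
      have h1 : (Q.len q + κ - 1) / κ ≤ B - 1 := by
        rw [← Nat.lt_succ_iff, Nat.div_lt_iff_lt_mul (by omega)]
        have : κ * (B - 1) = (B - 1) * κ := Nat.mul_comm _ _
        rw [Nat.succ_mul]
        omega
      omega
    have hB1 : B - 1 = 8 * (Nb + 3) * 500 + 1 := by omega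
    have e1 : κ * (B - 1) = 8 * (Nb + 3) * (κ * 500) + κ := by rw [hB1]; ring
    have hsd : ∀ g, g ∈ F'.SD 500 q → g ∈ Q.SD (κ * 500) q := by
      rintro g ⟨g1, g2⟩
      exact ⟨(hceil g).trans (Nat.mul_le_mul_left _ g1),
        (hceil _).trans (Nat.mul_le_mul_left _ g2)⟩
    obtain ⟨a1, a2⟩ := hacyQ q (by rw [hQDQ]; omega) g (hsd g hg)
    exact ⟨a1, fun h hh => a2 h (hsd h hh)⟩
  · intro g
    rw [hF']
    have h1 := hQ1 g
    have h2 := hcone.le g
    have h3 : Q.len (g : G ⧸ M) ≤ H.len g := h1.trans h2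
    rw [← Nat.lt_succ_iff, Nat.div_lt_iff_lt_mul (by omega)]
    have h4 : ((H.len g + 1) / 2 + 1) * 2 ≤ ((H.len g + 1) / 2).succ * κ :=
      Nat.mul_le_mul_left _ hκ
    have h5 : ((H.len g + 1) / 2).succ * κ = (H.len g + 1) / 2 * κ + κ := Nat.succ_mul _ _
    have h6 : (H.len g + 1) / 2 * 2 ≤ (H.len g + 1) / 2 * κ := Nat.mul_le_mul_left _ hκ
    omega
  · intro hf R
    have h1 := S.fin (by omega) hf (κ * R)
    refine h1.subset ?_
    intro q hq
    exact (hceil q).trans (Nat.mul_le_mul_left _ hq)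
  · intro g hg hgM
    by_contra hne
    obtain ⟨i, u, hiu⟩ := F.gr g hgM hne 1
    have h1 := L.s_le i u 1 (g * 1)
    rw [mul_one] at h1 hiu
    rw [H.d_one] at h1
    have h2 : T * (H.len g + 3250) ≤ T * (4 * R0 + 4 + 3250) := Nat.mul_le_mul_left _ (by omega)
    rw [hthr] at hiu
    have h3 : (n : ℤ) ≤ ((T * (4 * R0 + 4 + 3250) : ℕ) : ℤ) + 12 * th := by
      have : ((T * (H.len g + 3250) : ℕ) : ℤ) ≤ ((T * (4 * R0 + 4 + 3250) : ℕ) : ℤ) := by
        exact_mod_cast h2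
      omega
    have h4 : n ≤ T * (4 * R0 + 4 + 3250) + 12 * th := by exact_mod_cast h3
    omega
  · intro g hg
    by_cases hgt : IsOfFinOrder g
    · exact (QuotientGroup.mk' M).isOfFinOrder hgt
    · obtain ⟨i, u, k, hk⟩ := hshort g hgt (by rw [hD]; omega)
      rw [isOfFinOrder_iff_pow_eq_one]
      refine ⟨n, by omega, ?_⟩
      rw [← QuotientGroup.mk_pow, QuotientGroup.eq_one_iff, hk, conj_pow, ← zpow_natCast,
        ← zpow_mul, mul_comm, zpow_mul, zpow_natCast]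
      exact hMn.conj_mem _ (M.zpow_mem (hxM i) k) u

end Pool.Agent.Y44.HM
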