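import Pool.Agent.TH54.BU.Iter
import Pool.Agent.Y44.HM.StepN

/-!
# The iteration with two exponents (after helper54's `Iter2`)
-/

set_option autoImplicit false

namespace Pool.Agent.Y44.HM

open Pool.Agent.TH54.BU

section

variable {A0 F0 : Type} [Group A0] [Group F0] (π : A0 →* F0) (z0 : A0) (p K B T : ℕ)

/-- a stage of the construction -/
structure StgN where
  N : Subgroup A0
  hN : N.Normal
  M : Subgroup F0
  hM : M.Normal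
  map : N.map π = M
  inj : ∀ a ∈ N, π a = 1 → a = 1
  tz : ∀ a : A0, (∃ m : ℕ, 0 < m ∧ π a ^ m ∈ M) → π a ∉ M →
    ∃ (m : ℕ) (k : ℤ), (m = p ∨ m = p ^ 2) ∧ a ^ m * z0 ^ (-k) ∈ N ∧ ¬ (p : ℤ) ∣ k
  H : GH (F0 ⧸ M)
  hD : H.D = 4
  stab : H.Stab T
  acy : H.Acy K B
  fin : ∀ R : ℕ, {q : F0 ⧸ M | H.len q ≤ R}.Finite

variable {π z0 p K B T}

instance (s : StgN π z0 p K B T) : s.M.Normal := s.hM

instance (s : StgN π z0 p K B T) : s.N.Normal := s.hN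

/-- the length of an element at a stage -/
def StgN.ln (s : StgN π z0 p K B T) (g : F0) : ℕ := s.H.len (g : F0 ⧸ s.M)

/-- the relation between successive stages -/
structure NxtN (n R0 : ℕ) (s s' : StgN π z0 p K B T) : Prop where
  leN : s.N ≤ s'.N
  leM : s.M ≤ s'.M
  len : ∀ g, s'.ln g ≤ (s.ln g + 1) / 2
  small : ∀ g, s.ln g ≤ 4 * R0 + 4 → g ∈ s'.M → g ∈ s.M
  kill : ∀ g, s.ln g ≤ 1 → ∃ m : ℕ, 0 < m ∧ g ^ m ∈ s'.M
  tzs : ∀ a : A0, ¬ (∃ m : ℕ, 0 < m ∧ π a ^ m ∈ s.M) → s.ln (π a) ≤ 2 * R0 + 20 →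
    (∃ m : ℕ, 0 < m ∧ π a ^ m ∈ s'.M) → ∃ k : ℤ, a ^ n * z0 ^ (-k) ∈ s'.N ∧ ¬ (p : ℤ) ∣ k
  key : ∀ x y : F0, (∃ m : ℕ, 0 < m ∧ x ^ m ∈ s.M) → x ∉ s.M → s.ln x ≤ 1 → R0 ≤ s.ln y →
    (∀ m ∈ s'.M, s.ln y ≤ s.ln (m * y)) → ¬ ∃ m : ℕ, 0 < m ∧ (x * y * x * y⁻¹) ^ m ∈ s'.M

theorem exists_nextN {R0 n : ℕ} (hπ : Function.Surjective π) (hz : ∀ a, a * z0 = z0 * a)
    (hker : π.ker = Subgroup.zpowers z0)
    (hstep : ∀ (A G : Type) [Group A] [Group G] (φ : A →* G), Function.Surjective φ →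
    ∀ z : A, (∀ a, a * z = z * a) → φ.ker = Subgroup.zpowers z →
    (∀ a : A, IsOfFinOrder (φ a) → φ a ≠ 1 →
      ∃ (m : ℕ) (k : ℤ), (m = p ∨ m = p ^ 2) ∧ a ^ m = z ^ k ∧ ¬ (p : ℤ) ∣ k) →
    ∀ H : GH G, H.D = 4 → H.Stab T → H.Acy K B →
    ∃ (N : Subgroup A) (_ : N.Normal) (M : Subgroup G) (_ : M.Normal),
      StepN φ z n p K B T R0 H N M) (s : StgN π z0 p K B T) :
    ∃ s' : StgN π z0 p K B T, NxtN n R0 s s' := by
  have hNn := s.hN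
  have hMn := s.hM
  have hle : s.N ≤ s.M.comap π := by
    rw [← Subgroup.map_le_iff_le_comap, s.map]
  let φ : A0 ⧸ s.N →* F0 ⧸ s.M := QuotientGroup.map s.N s.M π hle
  have hφ : ∀ a : A0, φ (a : A0 ⧸ s.N) = ((π a : F0) : F0 ⧸ s.M) := fun a => rfl
  have hsurj : Function.Surjective φ := by
    intro g
    obtain ⟨g, rfl⟩ := QuotientGroup.mk_surjective g
    obtain ⟨a, rfl⟩ := hπ g
    exact ⟨a, rfl⟩
  have hlift : ∀ a : A0, π a ∈ s.M → ∃ n ∈ s.N, ∃ k : ℤ, a = n * z0 ^ k := by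
    intro a ha
    rw [← s.map] at ha
    obtain ⟨n, hn, hna⟩ := ha
    have h1 : n⁻¹ * a ∈ π.ker := by
      rw [MonoidHom.mem_ker, map_mul, map_inv, ← hna, inv_mul_cancel]
    rw [hker] at h1
    obtain ⟨k, hk⟩ := h1
    exact ⟨n, hn, k, by rw [show z0 ^ k = n⁻¹ * a from hk, mul_inv_cancel_left]⟩
  have hπz : π z0 = 1 := by
    have : z0 ∈ π.ker := by rw [hker]; exact Subgroup.mem_zpowers z0
    exact this
  have hkerφ : φ.ker = Subgroup.zpowers (z0 : A0 ⧸ s.N) := by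
    ext a
    obtain ⟨a, rfl⟩ := QuotientGroup.mk_surjective a
    rw [MonoidHom.mem_ker]
    constructor
    · intro h
      have h1 : π a ∈ s.M := (QuotientGroup.eq_one_iff _).1 h
      obtain ⟨n, hn, k, rfl⟩ := hlift a h1
      refine ⟨k, ?_⟩
      show ((z0 : A0) : A0 ⧸ s.N) ^ k = ((n * z0 ^ k : A0) : A0 ⧸ s.N)
      rw [QuotientGroup.mk_mul, (QuotientGroup.eq_one_iff n).2 hn, one_mul,
        QuotientGroup.mk_zpow]
    · rintro ⟨k, hk⟩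
      have hk' : ((z0 : A0) : A0 ⧸ s.N) ^ k = (a : A0 ⧸ s.N) := hk
      show φ (a : A0 ⧸ s.N) = 1
      rw [← hk', map_zpow, hφ, hπz]
      simp
  have htz : ∀ a : A0 ⧸ s.N, IsOfFinOrder (φ a) → φ a ≠ 1 →
      ∃ (m : ℕ) (k : ℤ), (m = p ∨ m = p ^ 2) ∧ a ^ m = (z0 : A0 ⧸ s.N) ^ k ∧ ¬ (p : ℤ) ∣ k := by
    intro a h1 h2
    obtain ⟨a, rfl⟩ := QuotientGroup.mk_surjective a
    have h3 := (fin_mk s.M (π a)).1 h1
    have h4 : π a ∉ s.M := fun h => h2 ((QuotientGroup.eq_one_iff _).2 h)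
    obtain ⟨m, k, hm, hk, hk2⟩ := s.tz a h3 h4
    refine ⟨m, k, hm, ?_, hk2⟩
    have h5 := (QuotientGroup.eq_one_iff (N := s.N) _).2 hk
    rw [QuotientGroup.mk_mul, QuotientGroup.mk_pow, QuotientGroup.mk_zpow, zpow_neg] at h5
    exact mul_inv_eq_one.1 h5
  have hzq : ∀ a : A0 ⧸ s.N, a * (z0 : A0 ⧸ s.N) = (z0 : A0 ⧸ s.N) * a := by
    intro a
    obtain ⟨a, rfl⟩ := QuotientGroup.mk_surjective a
    show (a : A0 ⧸ s.N) * (z0 : A0 ⧸ s.N) = (z0 : A0 ⧸ s.N) * (a : A0 ⧸ s.N)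
    rw [← QuotientGroup.mk_mul, ← QuotientGroup.mk_mul, hz]
  obtain ⟨N1, hN1, M1, hM1, S⟩ := hstep (A0 ⧸ s.N) (F0 ⧸ s.M) φ hsurj (z0 : A0 ⧸ s.N) hzq hkerφ
    htz s.H s.hD s.stab s.acy
  obtain ⟨F, hFD, hFS, hFA, hFlen, hFfin⟩ := S.len
  -- the new subgroups
  let N' : Subgroup A0 := N1.comap (QuotientGroup.mk' s.N)
  let M' : Subgroup F0 := M1.comap (QuotientGroup.mk' s.M)
  have hN'n : N'.Normal := hN1.comap _
  have hM'n : M'.Normal := hM1.comap _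
  have memN : ∀ a : A0, a ∈ N' ↔ (a : A0 ⧸ s.N) ∈ N1 := fun a => Iff.rfl
  have memM : ∀ g : F0, g ∈ M' ↔ (g : F0 ⧸ s.M) ∈ M1 := fun g => Iff.rfl
  let ψ : F0 →* (F0 ⧸ s.M) ⧸ M1 := (QuotientGroup.mk' M1).comp (QuotientGroup.mk' s.M)
  have hψker : ∀ g, ψ g = 1 ↔ g ∈ M' := by
    intro g
    show (((g : F0 ⧸ s.M) : (F0 ⧸ s.M)) : (F0 ⧸ s.M) ⧸ M1) = 1 ↔ _
    rw [QuotientGroup.eq_one_iff, memM]
  let e0 : F0 ⧸ M' →* (F0 ⧸ s.M) ⧸ M1 := QuotientGroup.lift M' ψ (fun g hg => (hψker g).2 hg)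
  have he0 : Function.Bijective e0 := by
    constructor
    · rw [injective_iff_map_eq_one]
      intro g hg
      obtain ⟨g, rfl⟩ := QuotientGroup.mk_surjective g
      exact (QuotientGroup.eq_one_iff _).2 ((hψker g).1 hg)
    · intro g
      obtain ⟨g, rfl⟩ := QuotientGroup.mk_surjective g
      obtain ⟨g, rfl⟩ := QuotientGroup.mk_surjective g
      exact ⟨(g : F0 ⧸ M'), rfl⟩
  let e : F0 ⧸ M' ≃* (F0 ⧸ s.M) ⧸ M1 := MulEquiv.ofBijective e0 he0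
  have finM : ∀ g : F0, (∃ m : ℕ, 0 < m ∧ g ^ m ∈ M') ↔
      IsOfFinOrder ((g : F0 ⧸ s.M) : (F0 ⧸ s.M) ⧸ M1) := by
    intro g
    rw [fin_mk]
    constructor
    · rintro ⟨m, hm, h⟩
      exact ⟨m, hm, by rw [← QuotientGroup.mk_pow]; exact h⟩
    · rintro ⟨m, hm, h⟩
      refine ⟨m, hm, ?_⟩
      rw [memM, QuotientGroup.mk_pow]
      exact h
  refine ⟨⟨N', hN'n, M', hM'n, ?_, ?_, ?_, F.comapE e, hFD, F.comapE_stab e hFS,
    F.comapE_acy e hFA, fun R => (hFfin s.fin R).preimage e.injective.injOn⟩, ?_⟩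
  · ext g
    constructor
    · rintro ⟨a, ha, rfl⟩
      rw [memM, ← S.map]
      exact ⟨_, (memN a).1 ha, rfl⟩
    · intro hg
      rw [memM, ← S.map] at hg
      obtain ⟨n, hn, hng⟩ := hg
      obtain ⟨a, rfl⟩ := QuotientGroup.mk_surjective n
      have h1 : ((π a : F0) : F0 ⧸ s.M) = g := hng
      have h2 := QuotientGroup.eq.1 h1
      rw [← s.map] at h2
      obtain ⟨m, hm, hmg⟩ := h2
      refine ⟨a * m, ?_, ?_⟩
      · show ((a * m : A0) : A0 ⧸ s.N) ∈ N1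
        rw [QuotientGroup.mk_mul, (QuotientGroup.eq_one_iff m).2 hm, mul_one]
        exact hn
      · rw [map_mul, hmg, mul_inv_cancel_left]
  · intro a ha h1
    have h2 : (a : A0 ⧸ s.N) = 1 := by
      apply S.inj _ ((memN a).1 ha)
      rw [hφ, h1]
      rfl
    exact s.inj a ((QuotientGroup.eq_one_iff a).1 h2) h1
  · intro a h1 h2
    have h3 := (finM (π a)).1 h1
    obtain ⟨m, k, hm, hk, hk2⟩ := S.tz (a : A0 ⧸ s.N) h3 h2
    refine ⟨m, k, hm, ?_, hk2⟩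
    rw [memN, QuotientGroup.mk_mul, QuotientGroup.mk_pow, QuotientGroup.mk_zpow]
    exact hk
  · refine ⟨?_, ?_, ?_, ?_, ?_, ?_, ?_⟩
    · intro a ha
      show ((a : A0) : A0 ⧸ s.N) ∈ N1
      rw [(QuotientGroup.eq_one_iff a).2 ha]
      exact N1.one_mem
    · intro a ha
      show ((a : F0) : F0 ⧸ s.M) ∈ M1
      rw [(QuotientGroup.eq_one_iff a).2 ha]
      exact M1.one_mem
    · intro g
      exact hFlen (g : F0 ⧸ s.M)
    · intro g h1 h2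
      exact (QuotientGroup.eq_one_iff g).1 (S.small (g : F0 ⧸ s.M) h1 h2)
    · intro g h1
      exact (finM g).2 (S.kill (g : F0 ⧸ s.M) h1)
    · intro a h1 h2 h3
      obtain ⟨k, hk, hk2⟩ := S.tzs (a : A0 ⧸ s.N) (fun h => h1 ((fin_mk s.M (π a)).1 h)) h2
        ((finM (π a)).1 h3)
      refine ⟨k, ?_, hk2⟩
      show ((a ^ n * z0 ^ (-k) : A0) : A0 ⧸ s.N) ∈ N1
      rw [QuotientGroup.mk_mul, QuotientGroup.mk_pow, QuotientGroup.mk_zpow]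
      exact hk
    · intro x y h1 h2 h3 h4 h5 h6
      refine S.key (x : F0 ⧸ s.M) (y : F0 ⧸ s.M) ((fin_mk s.M x).2 h1)
        (fun h => h2 ((QuotientGroup.eq_one_iff _).1 h)) h3 h4 ?_ ?_
      · intro m hm
        obtain ⟨m, rfl⟩ := QuotientGroup.mk_surjective m
        exact h5 m hm
      · exact (finM _).1 h6

end


end Pool.Agent.Y44.HM
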