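import Mathlib

/-!
# Finite sets of words in two letters (helper44)
-/

set_option autoImplicit false

namespace Pool.Agent.Y44.HM

/-- the letters and the empty word -/
def S4 : Set (FreeGroup (Fin 2)) :=
  {1, FreeGroup.of 0, (FreeGroup.of 0)⁻¹, FreeGroup.of 1, (FreeGroup.of 1)⁻¹}

/-- products of `n` elements of `S4` -/
def Wn : ℕ → Set (FreeGroup (Fin 2))
  | 0 => {1}
  | n + 1 => {w | ∃ v ∈ Wn n, ∃ a ∈ S4, w = v * a}

/-- the evaluation of a word -/
def ev {G : Type*} [Group G] (x y : G) : FreeGroup (Fin 2) →* G := FreeGroup.lift ![x, y]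

theorem ev_zero {G : Type*} [Group G] (x y : G) : ev x y (FreeGroup.of 0) = x := by
  simp [ev]

theorem ev_one {G : Type*} [Group G] (x y : G) : ev x y (FreeGroup.of 1) = y := by
  simp [ev]

theorem ev_map {G G' : Type*} [Group G] [Group G'] (f : G →* G') (x y : G)
    (v : FreeGroup (Fin 2)) : f (ev x y v) = ev (f x) (f y) v := by
  have : f.comp (ev x y) = ev (f x) (f y) := by
    apply FreeGroup.ext_hom
    intro i
    fin_cases i
    · simp [ev]
    · simp [ev]
  rw [← this]; rfl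

theorem ev_comm {G : Type*} [Group G] (x : G) (v : FreeGroup (Fin 2)) :
    Commute x (ev x 1 v) := by
  have h : (ev x 1).range ≤ Subgroup.centralizer {x} := by
    rw [MonoidHom.range_eq_map, ← FreeGroup.closure_range_of, MonoidHom.map_closure,
      Subgroup.closure_le]
    rintro _ ⟨_, ⟨i, rfl⟩, rfl⟩
    rw [SetLike.mem_coe, Subgroup.mem_centralizer_iff]
    intro g hg
    rw [Set.mem_singleton_iff.1 hg]
    fin_cases i
    · simp [ev]
    · simp [ev]
  have h1 : ev x 1 v ∈ Subgroup.centralizer {x} := h ⟨v, rfl⟩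
  rw [Subgroup.mem_centralizer_iff] at h1
  exact h1 x rfl

theorem one_mem_S4 : (1 : FreeGroup (Fin 2)) ∈ S4 := Or.inl rfl

theorem S4_inv {a : FreeGroup (Fin 2)} (ha : a ∈ S4) : a⁻¹ ∈ S4 := by
  rcases ha with rfl | rfl | rfl | rfl | ha
  · rw [inv_one]; exact Or.inl rfl
  · exact Or.inr (Or.inr (Or.inl rfl))
  · rw [inv_inv]; exact Or.inr (Or.inl rfl)
  · exact Or.inr (Or.inr (Or.inr (Or.inr rfl)))
  · rw [Set.mem_singleton_iff.1 ha, inv_inv]; exact Or.inr (Or.inr (Or.inr (Or.inl rfl)))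

theorem S4_finite : S4.Finite := by
  unfold S4
  exact Set.toFinite _

theorem Wn_finite (n : ℕ) : (Wn n).Finite := by
  induction n with
  | zero => exact Set.finite_singleton 1
  | succ n ih =>
    refine ((ih.prod S4_finite).image (fun p => p.1 * p.2)).subset ?_
    rintro w ⟨v, hv, a, ha, rfl⟩
    exact ⟨(v, a), ⟨hv, ha⟩, rfl⟩

theorem Wn_succ {n : ℕ} {v : FreeGroup (Fin 2)} (hv : v ∈ Wn n) : v ∈ Wn (n + 1) :=
  ⟨v, hv, 1, one_mem_S4, (mul_one v).symm⟩

theorem Wn_mono {m n : ℕ} (h : m ≤ n) {v : FreeGroup (Fin 2)} (hv : v ∈ Wn m) : v ∈ Wn n := by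
  induction n, h using Nat.le_induction with
  | base => exact hv
  | succ n _ ih => exact Wn_succ ih

theorem one_mem_Wn (n : ℕ) : (1 : FreeGroup (Fin 2)) ∈ Wn n := Wn_mono (Nat.zero_le n) rfl

theorem S4_Wn {a : FreeGroup (Fin 2)} (ha : a ∈ S4) : a ∈ Wn 1 := ⟨1, rfl, a, ha, (one_mul a).symm⟩

theorem Wn_mul {m n : ℕ} {v w : FreeGroup (Fin 2)} (hv : v ∈ Wn m) (hw : w ∈ Wn n) :
    v * w ∈ Wn (m + n) := by
  induction n generalizing w with
  | zero =>
    have : w = 1 := hw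
    rw [this, mul_one]; exact hv
  | succ n ih =>
    obtain ⟨w', hw', a, ha, rfl⟩ := hw
    exact ⟨v * w', ih hw', a, ha, (mul_assoc _ _ _).symm⟩

theorem Wn_inv {n : ℕ} {v : FreeGroup (Fin 2)} (hv : v ∈ Wn n) : v⁻¹ ∈ Wn n := by
  induction n generalizing v with
  | zero =>
    have : v = 1 := hv
    rw [this, inv_one]; rfl
  | succ n ih =>
    obtain ⟨v', hv', a, ha, rfl⟩ := hv
    rw [mul_inv_rev, add_comm]
    exact Wn_mul (S4_Wn (S4_inv ha)) (ih hv')

theorem Wn_pow {n : ℕ} {v : FreeGroup (Fin 2)} (hv : v ∈ Wn n) (k : ℕ) : v ^ k ∈ Wn (k * n) := by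
  induction k with
  | zero => rw [pow_zero]; exact one_mem_Wn _
  | succ k ih =>
    rw [pow_succ, Nat.succ_mul]
    exact Wn_mul ih hv

/-- the intermediate value property for lengths of words -/
theorem exists_prefix {G : Type*} [Group G] (x y : G) (l : G → ℕ) (h1 : l 1 = 0)
    (hm : ∀ g h, l (g * h) ≤ l g + l h) (hi : ∀ g, l g⁻¹ = l g) {R : ℕ} (hR : 0 < R)
    (hx : l x ≤ R) (hy : l y ≤ R) :
    ∀ {n : ℕ} {v : FreeGroup (Fin 2)}, v ∈ Wn n → R ≤ l (ev x y v) →
      ∃ v' ∈ Wn n, R ≤ l (ev x y v') ∧ l (ev x y v') ≤ 2 * R := by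
  intro n
  induction n with
  | zero =>
    intro v hv hl
    have : v = 1 := hv
    rw [this, map_one, h1] at hl
    omega
  | succ n ih =>
    rintro v ⟨v', hv', a, ha, rfl⟩ hl
    rcases le_or_gt R (l (ev x y v')) with h | h
    · obtain ⟨w, hw, h2⟩ := ih hv' h
      exact ⟨w, Wn_succ hw, h2⟩
    · refine ⟨v' * a, ⟨v', hv', a, ha, rfl⟩, hl, ?_⟩
      have h2 : l (ev x y a) ≤ R := by
        rcases ha with rfl | rfl | rfl | rfl | ha
        · rw [map_one, h1]; omega
        · rw [ev_zero]; exact hx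
        · rw [map_inv, ev_zero, hi]; exact hx
        · rw [ev_one]; exact hy
        · rw [Set.mem_singleton_iff.1 ha, map_inv, ev_one, hi]; exact hy
      rw [map_mul] at *
      have := hm (ev x y v') (ev x y a)
      omega

end Pool.Agent.Y44.HM
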