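import Pool.Agent.Y44.HM.IterN
import Pool.Agent.Y44.HM.Wds

/-!
# The tower of quotients: products `x w x w⁻¹` become torsion at controlled stages (helper44)
-/

set_option autoImplicit false

namespace Pool.Agent.Y44.HM

open Pool.Agent.TH54.BU

/-- the product `x y x y⁻¹` -/
def fw {G : Type*} [Group G] (x y : G) : G := x * y * x * y⁻¹

theorem fw_map {G G' : Type*} [Group G] [Group G'] (f : G →* G') (x y : G) :
    f (fw x y) = fw (f x) (f y) := by
  simp [fw]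

section

variable {A0 F0 : Type} [Group A0] [Group F0] {π : A0 →* F0} {z0 : A0} {p K B T R0 : ℕ}
  {nn : ℕ → ℕ} (s : ℕ → StgN π z0 p K B T)

/-- `g` has finite order at the stage `n` -/
def tor (n : ℕ) (g : F0) : Prop := ∃ m : ℕ, 0 < m ∧ g ^ m ∈ (s n).M

theorem ln_mul (n : ℕ) (g h : F0) : (s n).ln (g * h) ≤ (s n).ln g + (s n).ln h := by
  unfold StgN.ln
  rw [QuotientGroup.mk_mul]
  exact (s n).H.len_mul _ _

theorem ln_inv (n : ℕ) (g : F0) : (s n).ln g⁻¹ = (s n).ln g := by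
  unfold StgN.ln
  rw [QuotientGroup.mk_inv]
  exact (s n).H.len_inv _

theorem ln_one (n : ℕ) : (s n).ln 1 = 0 := by
  unfold StgN.ln
  rw [QuotientGroup.mk_one]
  exact (s n).H.len_one

theorem mem_of_ln {n : ℕ} {g : F0} (h : (s n).ln g = 0) : g ∈ (s n).M :=
  (QuotientGroup.eq_one_iff _).1 ((s n).H.eq_one _ h)

theorem ln_congr {n : ℕ} {g m : F0} (hm : m ∈ (s n).M) : (s n).ln (m * g) = (s n).ln g := by
  unfold StgN.ln
  rw [QuotientGroup.mk_mul, (QuotientGroup.eq_one_iff m).2 hm, one_mul]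

theorem ln_fw (n : ℕ) (x y : F0) : (s n).ln (fw x y) ≤ 2 * (s n).ln x + 2 * (s n).ln y := by
  have h1 := ln_mul s n (x * y * x) y⁻¹
  have h2 := ln_mul s n (x * y) x
  have h3 := ln_mul s n x y
  rw [ln_inv] at h1
  unfold fw
  omega

theorem stab_ln {n : ℕ} {g : F0} (hg : ¬ tor s n g) (m : ℕ) : m ≤ T * (s n).ln (g ^ m) := by
  have := (s n).stab (g : F0 ⧸ (s n).M) (fun h => hg ((fin_mk _ _).1 h)) m
  rwa [← QuotientGroup.mk_pow] at this

variable {s}
variable (hs : ∀ n, NxtN (nn n) R0 (s n) (s (n + 1)))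

include hs

theorem tow_M_mono : Monotone fun n => (s n).M := monotone_nat_of_le_succ fun n => (hs n).leM

theorem tow_N_mono : Monotone fun n => (s n).N := monotone_nat_of_le_succ fun n => (hs n).leN

theorem tor_mono {n n' : ℕ} (hn : n ≤ n') {g : F0} : tor s n g → tor s n' g := by
  rintro ⟨m, hm, h⟩
  exact ⟨m, hm, tow_M_mono hs hn h⟩

theorem ln_le {k : ℕ} (hk : 1 ≤ k) {n n' : ℕ} (hn : n ≤ n') {g : F0} (h : (s n).ln g ≤ k) :
    (s n').ln g ≤ k := by
  induction n', hn using Nat.le_induction with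
  | base => exact h
  | succ n' _ ih =>
    have := (hs n').len g
    omega

/-- the stage at which a short element becomes torsion -/
theorem kill_time (l : ℕ) : ∀ (n : ℕ) (g : F0), (s n).ln g ≤ l → (s n).ln g ≤ 2 * R0 + 20 →
    ¬ tor s n g → ∃ t, n ≤ t ∧ t ≤ n + l ∧ ¬ tor s t g ∧ tor s (t + 1) g ∧
      (s t).ln g ≤ 2 * R0 + 20 := by
  induction l with
  | zero =>
    intro n g h1 _ h3
    exact absurd ⟨1, one_pos, by rw [pow_one]; exact mem_of_ln s (by omega)⟩ h3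
  | succ l ih =>
    intro n g h1 h2 h3
    by_cases ht : tor s (n + 1) g
    · exact ⟨n, le_rfl, by omega, h3, ht, h2⟩
    · by_cases hl1 : (s n).ln g ≤ 1
      · exact absurd ((hs n).kill _ hl1) ht
      · have h4 := (hs n).len g
        obtain ⟨t, a1, a2, a3⟩ := ih (n + 1) g (by omega) (by omega) ht
        exact ⟨t, by omega, by omega, a3⟩

/-- every element becomes torsion and short -/
theorem eventually_short (g : F0) (n0 : ℕ) : ∃ n ≥ n0, (s n).ln g ≤ 1 ∧ tor s n g := by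
  have hdec : ∀ k n : ℕ, (s n).ln g ≤ k + 1 → ∃ n' ≥ n, (s n').ln g ≤ 1 := by
    intro k
    induction k with
    | zero => exact fun n h => ⟨n, le_rfl, h⟩
    | succ k ih =>
      intro n h
      have := (hs n).len g
      obtain ⟨n', h1, h2⟩ := ih (n + 1) (by omega)
      exact ⟨n', by omega, h2⟩
  obtain ⟨n, h1, hn⟩ := hdec ((s n0).ln g) n0 (by omega)
  exact ⟨n + 1, by omega, ln_le hs le_rfl (by omega) hn, (hs n).kill g hn⟩

/-- a configuration: the word `x v x v⁻¹` is short and is killed at the stage `t` -/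
structure Cfg (s : ℕ → StgN π z0 p K B T) (R0 : ℕ) (x y : F0) (N t : ℕ)
    (v : FreeGroup (Fin 2)) : Prop where
  mem : v ∈ Wn N
  xs : (s t).ln x ≤ 1
  xt : tor s t x
  xm : x ∉ (s t).M
  ys : (s t).ln y < R0
  inf : ¬ tor s t (fw x (ev x y v))
  fin : tor s (t + 1) (fw x (ev x y v))
  len : (s t).ln (fw x (ev x y v)) ≤ 2 * R0 + 20

/-- the next configuration -/
theorem next_cfg (hR0 : 2 ≤ R0) (hT : 1 ≤ T) {x y : F0} {N t : ℕ} {v : FreeGroup (Fin 2)}
    (hxM : ∀ n, x ∉ (s n).M) (C : Cfg s R0 x y N t v) :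
    ∃ v' t', Cfg s R0 x y (T * R0 * (2 + 2 * N)) t' v' ∧ t + 1 ≤ t' ∧ t' ≤ t + 1 + (2 * R0 + 2) := by
  -- a power of the word
  set w : FreeGroup (Fin 2) := (FreeGroup.of 0 * v * FreeGroup.of 0 * v⁻¹) ^ (T * R0) with hw
  have hwm : w ∈ Wn (T * R0 * (2 + 2 * N)) := by
    refine Wn_pow (n := 2 + 2 * N) ?_ _
    have h0 : (FreeGroup.of 0 : FreeGroup (Fin 2)) ∈ Wn 1 := S4_Wn (Or.inr (Or.inl rfl))
    have h1 := Wn_mul (Wn_mul (Wn_mul h0 C.mem) h0) (Wn_inv C.mem)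
    exact Wn_mono (by omega) h1
  have hwe : ev x y w = (fw x (ev x y v)) ^ (T * R0) := by
    rw [hw, map_pow, map_mul, map_mul, map_mul, map_inv, ev_zero]
    rfl
  have hwl : R0 ≤ (s t).ln (ev x y w) := by
    have h1 := stab_ln s C.inf (T * R0)
    rw [← hwe] at h1
    exact Nat.le_of_mul_le_mul_left h1 hT
  obtain ⟨v', hv', hv1, hv2⟩ := exists_prefix x y (s t).ln (ln_one s t) (ln_mul s t) (ln_inv s t)
    (R := R0) (by omega) (by have := C.xs; omega) C.ys.le hwm hwl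
  have hmin : ∀ m ∈ (s (t + 1)).M, (s t).ln (ev x y v') ≤ (s t).ln (m * ev x y v') := by
    intro m hm
    by_contra hcon
    push Not at hcon
    have h1 := ln_mul s t (m * ev x y v') (ev x y v')⁻¹
    rw [ln_inv, mul_inv_cancel_right] at h1
    have h2 := (hs t).small m (by omega) hm
    rw [ln_congr s h2] at hcon
    omega
  have hkey := (hs t).key x (ev x y v') C.xt C.xm C.xs hv1 hmin
  have hkey' : ¬ tor s (t + 1) (fw x (ev x y v')) := hkey
  have hx1 : (s (t + 1)).ln x ≤ 1 := ln_le hs le_rfl (Nat.le_succ t) C.xs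
  have hv3 := (hs t).len (ev x y v')
  have hlen := ln_fw s (t + 1) x (ev x y v')
  obtain ⟨t', a1, a2, a3, a4, a5⟩ := kill_time hs (2 * R0 + 2) (t + 1) (fw x (ev x y v'))
    (by omega) (by omega) hkey'
  refine ⟨v', t', ⟨hv', ln_le hs le_rfl (by omega) C.xs, tor_mono hs (by omega) C.xt,
    hxM t', ?_, a3, a4, a5⟩, a1, a2⟩
  have h6 := ln_le hs (k := R0 - 1) (n := t) (n' := t') (by omega) (by omega) (g := y)
    (by have := C.ys; omega)
  omega

/-- configurations reach every set of stages which cannot be avoided -/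
theorem reach (hR0 : 2 ≤ R0) (hT : 1 ≤ T) {P : ℕ → Prop} {ρ : ℕ → ℕ}
    (hρ : ∀ t δ, ¬ P t → 1 ≤ δ → δ ≤ 2 * R0 + 3 → P (t + δ) ∨ ρ (t + δ) < ρ t) (r : ℕ) :
    ∀ N : ℕ, ∃ N' : ℕ, N ≤ N' ∧ ∀ (x y : F0) (t : ℕ) (v : FreeGroup (Fin 2)),
      (∀ n, x ∉ (s n).M) → ρ t ≤ r → Cfg s R0 x y N t v →
      ∃ v' t', t ≤ t' ∧ P t' ∧ Cfg s R0 x y N' t' v' := by
  induction r with
  | zero =>
    intro N
    refine ⟨N + T * R0 * (2 + 2 * N), by omega, ?_⟩
    intro x y t v hxM hr C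
    by_cases hP : P t
    · exact ⟨v, t, le_rfl, hP, { C with mem := Wn_mono (by omega) C.mem }⟩
    · obtain ⟨v', t', C', h1, h2⟩ := next_cfg hs hR0 hT hxM C
      obtain ⟨δ, rfl⟩ := Nat.exists_eq_add_of_le (show t ≤ t' by omega)
      rcases hρ t δ hP (by omega) (by omega) with h | h
      · exact ⟨v', t + δ, by omega, h, { C' with mem := Wn_mono (by omega) C'.mem }⟩
      · omega
  | succ r ih =>
    intro N
    obtain ⟨N', hN', hN⟩ := ih (T * R0 * (2 + 2 * N))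
    refine ⟨N + N', by omega, ?_⟩
    intro x y t v hxM hr C
    by_cases hP : P t
    · exact ⟨v, t, le_rfl, hP, { C with mem := Wn_mono (by omega) C.mem }⟩
    · obtain ⟨v', t', C', h1, h2⟩ := next_cfg hs hR0 hT hxM C
      obtain ⟨δ, rfl⟩ := Nat.exists_eq_add_of_le (show t ≤ t' by omega)
      rcases hρ t δ hP (by omega) (by omega) with h | h
      · exact ⟨v', t + δ, by omega, h, { C' with mem := Wn_mono (by omega) C'.mem }⟩
      · obtain ⟨v2, t2, b1, b2, C2⟩ := hN x y (t + δ) v' hxM (by omega) C'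
        exact ⟨v2, t2, by omega, b2, { C2 with mem := Wn_mono (by omega) C2.mem }⟩

/-- the first configuration -/
theorem first_cfg (hR0 : 2 ≤ R0) {x y0 : F0} {n0 : ℕ} {Minf : Subgroup F0} [Minf.Normal]
    (hMinf : ∀ n, (s n).M ≤ Minf) (hxM : ∀ n, x ∉ (s n).M) (hx1 : (s n0).ln x ≤ 1)
    (hx2 : tor s n0 x)
    (hP0 : ∀ y : F0, (y : F0 ⧸ Minf) = (y0 : F0 ⧸ Minf) → R0 ≤ (s n0).ln y) :
    ∃ (y : F0) (t : ℕ), n0 ≤ t ∧ (y : F0 ⧸ Minf) = (y0 : F0 ⧸ Minf) ∧
      Cfg s R0 x y 1 t (FreeGroup.of 1) := by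
  have hSM : ∀ n, (s n).M.Normal := fun n => (s n).hM
  let P : ℕ → Prop := fun n => ∀ y : F0,
    (y : F0 ⧸ Minf) = (y0 : F0 ⧸ Minf) → R0 ≤ (s n).ln y
  have hPf : ∃ n, ¬ P (n0 + n) := by
    obtain ⟨n, hn, h1, _⟩ := eventually_short hs y0 n0
    refine ⟨n - n0, fun h => ?_⟩
    rw [Nat.add_sub_cancel' hn] at h
    have := h y0 rfl
    omega
  classical
  have hspec := Nat.find_spec hPf
  obtain ⟨t, ht⟩ : ∃ t, Nat.find hPf = t + 1 := by
    rcases Nat.eq_zero_or_pos (Nat.find hPf) with h | h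
    · rw [h] at hspec
      exact absurd hP0 hspec
    · exact ⟨Nat.find hPf - 1, by omega⟩
  have hPt : P (n0 + t) := by
    by_contra h
    have := Nat.find_min' hPf h
    omega
  rw [ht] at hspec
  obtain ⟨n, hn⟩ : ∃ n, n = n0 + t := ⟨_, rfl⟩
  have hn1 : n0 + (t + 1) = n + 1 := by omega
  rw [hn1] at hspec
  rw [← hn] at hPt
  have hspec' : ∃ y : F0, (y : F0 ⧸ Minf) = (y0 : F0 ⧸ Minf) ∧
      (s (n + 1)).ln y < R0 := by
    by_contra hcon
    apply hspec
    intro y hy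
    by_contra h
    exact hcon ⟨y, hy, by omega⟩
  obtain ⟨y', hy', hy'l⟩ := hspec'
  -- a shortest representative at the stage `n`
  have hex : ∃ l, ∃ m ∈ (s (n + 1)).M, (s n).ln (m * y') = l := ⟨_, 1, Subgroup.one_mem _, rfl⟩
  obtain ⟨m, hm, hml⟩ := Nat.find_spec hex
  obtain ⟨y, hy⟩ : ∃ y, y = m * y' := ⟨_, rfl⟩
  have hmin : ∀ m' ∈ (s (n + 1)).M, (s n).ln y ≤ (s n).ln (m' * y) := by
    intro m' hm'
    rw [hy, hml]
    exact Nat.find_min' hex ⟨m' * m, Subgroup.mul_mem _ hm' hm, by rw [mul_assoc]⟩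
  have hyY : (y : F0 ⧸ Minf) = (y0 : F0 ⧸ Minf) := by
    rw [← hy', hy, QuotientGroup.mk_mul, (QuotientGroup.eq_one_iff m).2 (hMinf (n + 1) hm),
      one_mul]
  have hyR : R0 ≤ (s n).ln y := hPt y hyY
  have hyl : (s (n + 1)).ln y < R0 := by
    have : (s (n + 1)).ln y = (s (n + 1)).ln y' := by
      rw [hy, ln_congr s hm]
    omega
  have hkey : ¬ tor s (n + 1) (fw x y) := (hs n).key x y (tor_mono hs (by omega) hx2) (hxM n)
    (ln_le hs le_rfl (by omega) hx1) hyR hmin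
  have hxl : (s (n + 1)).ln x ≤ 1 := ln_le hs le_rfl (by omega) hx1
  have hlen := ln_fw s (n + 1) x y
  obtain ⟨t', a1, a2, a3, a4, a5⟩ := kill_time hs (2 * R0 + 2) (n + 1) (fw x y)
    (by omega) (by omega) hkey
  refine ⟨y, t', by omega, hyY, ⟨S4_Wn (Or.inr (Or.inr (Or.inr (Or.inl rfl)))),
    ln_le hs le_rfl (by omega) hx1, tor_mono hs (by omega) hx2, hxM t', ?_, ?_, ?_, ?_⟩⟩
  · have h6 := ln_le hs (k := R0 - 1) (n := n + 1) (n' := t') (by omega) (by omega) (g := y)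
      (by omega)
    omega
  · rw [ev_one]; exact a3
  · rw [ev_one]; exact a4
  · rw [ev_one]; exact a5

end

end Pool.Agent.Y44.HM
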