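import Pool.Agent.TH54.BU.Main2
import Pool.Agent.Y44.HM.Tow

/-!
# The limit group (helper44)
-/

set_option autoImplicit false

namespace Pool.Agent.Y44.HM

open Pool.Agent.TH54.BU

/-- The properties of the limit group `K`: `A` is a central extension of `K` by the infinite cyclic
group `⟨z⟩`, the elements of `A` outside `⟨z⟩` have a `p`-th or `p ^ 2`-th power which is a power
of `z` with exponent prime to `p`; for nontrivial `X` and almost all `Y` the `p`-th power of one of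
the finitely many products `X w X w⁻¹`, `w ∈ Wn Nw` a word in `X`, `Y`, is trivial, and the `p`-th
power of such a product is nontrivial for some word. -/
structure Lim (p Nw : ℕ) {A K : Type} [Group A] [Group K] (φ : A →* K) (z : A) : Prop where
  surj : Function.Surjective φ
  ker : φ.ker = Subgroup.zpowers z
  cen : ∀ a, a * z = z * a
  zinf : ¬ IsOfFinOrder z
  pw : ∀ a : A, a ∉ Subgroup.zpowers z →
    ∃ (m : ℕ) (k : ℤ), (m = p ∨ m = p ^ 2) ∧ a ^ m = z ^ k ∧ ¬ (p : ℤ) ∣ k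
  nab : ∃ a b : A, a * b ≠ b * a
  one : ∀ X : K, X ≠ 1 → {Y : K | ¬ ∃ v ∈ Wn Nw, (fw X (ev X Y v)) ^ p = 1}.Finite
  two : ∀ X : K, X ≠ 1 → {Y : K | ¬ ∃ v : FreeGroup (Fin 2), (fw X (ev X Y v)) ^ p ≠ 1}.Finite

theorem exists_lim : ∃ p0 : ℕ, ∀ p : ℕ, p.Prime → p0 ≤ p → ∃ (Nw : ℕ) (A K : Type) (_ : Group A)
    (_ : Group K) (φ : A →* K) (z : A), Lim p Nw φ z := by
  obtain ⟨K, B, T, R0, hK, hB, hT, hR0, p0, hstep⟩ := stepN
  refine ⟨p0, fun p hp hpp => ?_⟩
  have hst := hstep p hp hpp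
  let A0 := FreeGroup (Fin 2) × Multiplicative ℤ
  let F0 := FreeGroup (Fin 2)
  let π : A0 →* F0 := MonoidHom.fst _ _
  let z0 : A0 := (1, Multiplicative.ofAdd 1)
  have hz0 : ∀ k : ℤ, z0 ^ k = (1, Multiplicative.ofAdd k) := by
    intro k
    apply Prod.ext
    · show (1 : FreeGroup (Fin 2)) ^ k = 1
      exact one_zpow k
    · show (Multiplicative.ofAdd (1 : ℤ)) ^ k = Multiplicative.ofAdd k
      rw [← ofAdd_zsmul]
      simp
  have hπ : Function.Surjective π := fun g => ⟨(g, 1), rfl⟩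
  have hz : ∀ a : A0, a * z0 = z0 * a := by
    intro a
    apply Prod.ext
    · show a.1 * 1 = 1 * a.1
      rw [mul_one, one_mul]
    · exact mul_comm _ _
  have hker : π.ker = Subgroup.zpowers z0 := by
    ext a
    constructor
    · intro h
      have h1 : a.1 = 1 := h
      refine ⟨Multiplicative.toAdd a.2, ?_⟩
      show z0 ^ (Multiplicative.toAdd a.2) = a
      rw [hz0]
      exact Prod.ext h1.symm rfl
    · rintro ⟨k, rfl⟩
      show π (z0 ^ k) = 1
      rw [hz0]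
      rfl
  obtain ⟨H0, hD0, hS0, hA0, hlen0, hfin0⟩ := base2 (Fin 2)
  have htf : ∀ g : F0, ∀ m : ℕ, 0 < m → g ^ m = 1 → g = 1 := by
    intro g m hm h
    have h1 : g ^ m = 1 ^ m := by rw [h, one_pow]
    exact pow_left_injective hm.ne' h1
  -- the first stage
  let e0 : F0 ⧸ (⊥ : Subgroup F0) ≃* F0 := QuotientGroup.quotientBot
  let s0 : StgN π z0 p K B T :=
    { N := ⊥
      hN := inferInstance
      M := ⊥
      hM := inferInstance
      map := Subgroup.map_bot π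
      inj := fun a ha _ => Subgroup.mem_bot.1 ha
      tz := by
        rintro a ⟨m, hm, h1⟩ h2
        exact absurd (Subgroup.mem_bot.2 (htf _ m hm (Subgroup.mem_bot.1 h1))) h2
      H := H0.comapE e0
      hD := hD0
      stab := by
        intro g hg m
        have := H0.comapE_stab e0 hS0 g hg m
        calc m ≤ 1 * (H0.comapE e0).len (g ^ m) := this
          _ ≤ T * (H0.comapE e0).len (g ^ m) := Nat.mul_le_mul_right _ hT
      acy := H0.comapE_acy e0 (hA0 K B hB)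
      fin := fun R => (hfin0 R).preimage e0.injective.injOn }
  have hnext := fun (n : {n : ℕ // n = p ∨ n = p ^ 2}) => exists_nextN (K := K) (B := B) (T := T)
    (p := p) (R0 := R0) (n := n.1) hπ hz hker
    (fun A G _ _ φ h1 z h2 h3 h4 H h5 h6 h7 => hst n.1 n.2 A G φ h1 z h2 h3 h4 H h5 h6 h7)
  choose nx hnx using hnext
  -- the exponents
  obtain ⟨L0, hL0⟩ : ∃ x, x = 2 * R0 + 10 := ⟨_, rfl⟩
  let nn : ℕ → {n : ℕ // n = p ∨ n = p ^ 2} := fun t =>
    if t % (2 * L0) < L0 then ⟨p ^ 2, Or.inr rfl⟩ else ⟨p, Or.inl rfl⟩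
  have hnn1 : ∀ t, t % (2 * L0) < L0 → (nn t).1 = p ^ 2 := by
    intro t ht
    simp only [nn]
    rw [if_pos ht]
  have hnn2 : ∀ t, ¬ t % (2 * L0) < L0 → (nn t).1 = p := by
    intro t ht
    simp only [nn]
    rw [if_neg ht]
  obtain ⟨s, hs_0, hs_1⟩ : ∃ s : ℕ → StgN π z0 p K B T, s 0 = s0 ∧
      ∀ n, s (n + 1) = nx (nn n) (s n) :=
    ⟨fun n => Nat.rec s0 (fun k t => nx (nn k) t) n, rfl, fun n => rfl⟩
  have hSM : ∀ n, (s n).M.Normal := fun n => (s n).hM
  have h0ln : ∀ g : F0, (s 0).ln g = H0.len g := by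
    intro g
    rw [hs_0]
    rfl
  have h0M : ∀ g : F0, g ∈ (s 0).M → g = 1 := by
    intro g hg
    rw [hs_0] at hg
    exact Subgroup.mem_bot.1 hg
  have hs : ∀ n, NxtN (nn n).1 R0 (s n) (s (n + 1)) := by
    intro n
    rw [hs_1]
    exact hnx _ _
  have hNmono : Monotone fun n => (s n).N := monotone_nat_of_le_succ fun n => (hs n).leN
  have hMmono : Monotone fun n => (s n).M := monotone_nat_of_le_succ fun n => (hs n).leM
  -- the limit
  let Ninf : Subgroup A0 := ⨆ n, (s n).N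
  let Minf : Subgroup F0 := ⨆ n, (s n).M
  have memN : ∀ a : A0, a ∈ Ninf ↔ ∃ n, a ∈ (s n).N := fun a =>
    Subgroup.mem_iSup_of_directed hNmono.directed_le
  have memM : ∀ g : F0, g ∈ Minf ↔ ∃ n, g ∈ (s n).M := fun g =>
    Subgroup.mem_iSup_of_directed hMmono.directed_le
  have hNn : Ninf.Normal := by
    constructor
    intro a ha g
    obtain ⟨n, hn⟩ := (memN a).1 ha
    exact (memN _).2 ⟨n, (s n).hN.conj_mem a hn g⟩
  have hMn : Minf.Normal := by
    constructor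
    intro a ha g
    obtain ⟨n, hn⟩ := (memM a).1 ha
    exact (memM _).2 ⟨n, (s n).hM.conj_mem a hn g⟩
  have hMle : ∀ n, (s n).M ≤ Minf := fun n g hg => (memM g).2 ⟨n, hg⟩
  have hπN : ∀ a ∈ Ninf, π a ∈ Minf := by
    intro a ha
    obtain ⟨n, hn⟩ := (memN a).1 ha
    rw [memM]
    refine ⟨n, ?_⟩
    rw [← (s n).map]
    exact ⟨a, hn, rfl⟩
  have hle : Ninf ≤ Minf.comap π := hπN
  let φ : A0 ⧸ Ninf →* F0 ⧸ Minf := QuotientGroup.map Ninf Minf π hle
  have hφ : ∀ a : A0, φ (a : A0 ⧸ Ninf) = ((π a : F0) : F0 ⧸ Minf) := fun a => rfl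
  have hφz : ∀ k : ℤ, φ ((z0 : A0 ⧸ Ninf) ^ k) = 1 := by
    intro k
    rw [← QuotientGroup.mk_zpow, hφ, hz0]
    rfl
  have hmem0 : ∀ (n : ℕ) (a : A0), π a ∈ (s n).M → ∃ k : ℤ,
      (a : A0 ⧸ Ninf) = (z0 : A0 ⧸ Ninf) ^ k := by
    intro n a hn
    rw [← (s n).map] at hn
    obtain ⟨b, hb, hba⟩ := hn
    have h1 : b⁻¹ * a ∈ π.ker := by
      rw [MonoidHom.mem_ker, map_mul, map_inv, ← hba, inv_mul_cancel]
    rw [hker] at h1
    obtain ⟨k, hk⟩ := h1
    have hk' : z0 ^ k = b⁻¹ * a := hk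
    refine ⟨k, ?_⟩
    rw [← QuotientGroup.mk_zpow, hk', QuotientGroup.mk_mul, QuotientGroup.mk_inv,
      (QuotientGroup.eq_one_iff b).2 ((memN b).2 ⟨n, hb⟩), inv_one, one_mul]
  have hmem : ∀ a : A0, π a ∈ Minf → ∃ k : ℤ, (a : A0 ⧸ Ninf) = (z0 : A0 ⧸ Ninf) ^ k := by
    intro a ha
    rw [memM] at ha
    obtain ⟨n, hn⟩ := ha
    exact hmem0 n a hn
  have hkerφ : φ.ker = Subgroup.zpowers (z0 : A0 ⧸ Ninf) := by
    ext a
    obtain ⟨a, rfl⟩ := QuotientGroup.mk_surjective a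
    constructor
    · intro h
      obtain ⟨k, hk⟩ := hmem a ((QuotientGroup.eq_one_iff _).1 h)
      exact ⟨k, hk.symm⟩
    · rintro ⟨k, hk⟩
      have hk' : (z0 : A0 ⧸ Ninf) ^ k = (a : A0 ⧸ Ninf) := hk
      rw [MonoidHom.mem_ker]
      show φ (a : A0 ⧸ Ninf) = 1
      rw [← hk', hφz]
  have hzc : ∀ a : A0 ⧸ Ninf, Commute a (z0 : A0 ⧸ Ninf) := by
    intro a
    obtain ⟨a, rfl⟩ := QuotientGroup.mk_surjective a
    show (a : A0 ⧸ Ninf) * (z0 : A0 ⧸ Ninf) = (z0 : A0 ⧸ Ninf) * (a : A0 ⧸ Ninf)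
    rw [← QuotientGroup.mk_mul, ← QuotientGroup.mk_mul, hz]
  have hNpow : ∀ (n : ℕ) (a : A0) (m : ℕ) (k : ℤ), a ^ m * z0 ^ (-k) ∈ (s n).N →
      (a : A0 ⧸ Ninf) ^ m = (z0 : A0 ⧸ Ninf) ^ k := by
    intro n a m k h
    have h5 := (QuotientGroup.eq_one_iff (N := Ninf) _).2 ((memN _).2 ⟨n, h⟩)
    rw [QuotientGroup.mk_mul, QuotientGroup.mk_pow, QuotientGroup.mk_zpow, zpow_neg] at h5
    exact mul_inv_eq_one.1 h5
  have hzinf : ¬ IsOfFinOrder (z0 : A0 ⧸ Ninf) := by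
    rw [fin_mk]
    rintro ⟨m, hm, h⟩
    obtain ⟨n, hn⟩ := (memN _).1 h
    have h1 : π (z0 ^ m) = 1 := by
      rw [← zpow_natCast, hz0]
      rfl
    have h2 := (s n).inj _ hn h1
    rw [← zpow_natCast, hz0] at h2
    have h3 : Multiplicative.ofAdd (m : ℤ) = 1 := congrArg Prod.snd h2
    have h4 : (m : ℤ) = 0 := h3
    omega
  have hzi : ∀ {a b : ℤ}, (z0 : A0 ⧸ Ninf) ^ a = (z0 : A0 ⧸ Ninf) ^ b → a = b := fun h =>
    injective_zpow_iff_not_isOfFinOrder.2 hzinf h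
  -- torsion elements survive
  have hsurv : ∀ (n : ℕ) (g : F0), tor s n g → g ∉ (s n).M → g ∉ Minf := by
    intro n g h1 h2 h3
    obtain ⟨a, rfl⟩ := hπ g
    obtain ⟨m, k, hm, hk, hpk⟩ := (s n).tz a h1 h2
    have e1 := hNpow n a m k hk
    obtain ⟨l, hl⟩ := hmem a h3
    rw [hl, ← zpow_natCast, ← zpow_mul] at e1
    have e2 := hzi e1
    apply hpk
    rw [← e2]
    rcases hm with h | h
    · rw [h]; exact Dvd.intro_left _ rfl
    · rw [h]
      push_cast
      exact ⟨l * p, by ring⟩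
  have hpn0 : p ≠ 0 := hp.ne_zero
  -- the reached stages
  have hr1 := reach hs hR0 hT (P := fun t => ¬ t % (2 * L0) < L0)
    (ρ := fun t => L0 - t % (2 * L0)) (by
      intro t δ h1 h2 h3
      have h1' : t % (2 * L0) < L0 := by
        by_contra h
        exact h1 h
      have h4 : (t + δ) % (2 * L0) = t % (2 * L0) + δ := by
        rw [Nat.add_mod, Nat.mod_eq_of_lt (show δ < 2 * L0 by omega)]
        exact Nat.mod_eq_of_lt (by omega)
      simp only [h4]
      omega) L0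
  have hr2 := reach hs hR0 hT (P := fun t => t % (2 * L0) < L0)
    (ρ := fun t => 2 * L0 - t % (2 * L0)) (by
      intro t δ h1 h2 h3
      have h5 : t % (2 * L0) < 2 * L0 := Nat.mod_lt _ (by omega)
      rcases Nat.lt_or_ge (t % (2 * L0) + δ) (2 * L0) with h | h
      · right
        have h4 : (t + δ) % (2 * L0) = t % (2 * L0) + δ := by
          rw [Nat.add_mod, Nat.mod_eq_of_lt (show δ < 2 * L0 by omega)]
          exact Nat.mod_eq_of_lt h
        simp only [h4]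
        omega
      · left
        have h4 : (t + δ) % (2 * L0) = t % (2 * L0) + δ - 2 * L0 := by
          rw [Nat.add_mod, Nat.mod_eq_of_lt (show δ < 2 * L0 by omega)]
          rw [Nat.mod_eq_sub_mod h]
          exact Nat.mod_eq_of_lt (by omega)
        simp only [h4]
        omega) (2 * L0)
  obtain ⟨N1, _, hN1⟩ := hr1 1
  obtain ⟨N2, _, hN2⟩ := hr2 1
  -- both properties hold outside a ball of a stage
  have hboth : ∀ X : F0 ⧸ Minf, X ≠ 1 → ∃ S : Set (F0 ⧸ Minf), S.Finite ∧ ∀ Y, Y ∉ S →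
      (∃ v ∈ Wn N1, (fw X (ev X Y v)) ^ p = 1) ∧
      (∃ v : FreeGroup (Fin 2), (fw X (ev X Y v)) ^ p ≠ 1) := by
    intro X hX
    obtain ⟨x, rfl⟩ := QuotientGroup.mk_surjective X
    have hxM : ∀ n, x ∉ (s n).M := by
      intro n h
      apply hX
      rw [QuotientGroup.eq_one_iff, memM]
      exact ⟨n, h⟩
    obtain ⟨n0, _, hx1, hx2⟩ := eventually_short hs x 0
    have hfin := (s n0).fin R0
    let ψ : F0 ⧸ (s n0).M →* F0 ⧸ Minf :=
      QuotientGroup.map (s n0).M Minf (MonoidHom.id F0) (hMle n0)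
    refine ⟨ψ '' {q : F0 ⧸ (s n0).M | (s n0).H.len q ≤ R0}, hfin.image ψ, ?_⟩
    intro Y hY
    obtain ⟨y0, rfl⟩ := QuotientGroup.mk_surjective Y
    have hP0 : ∀ y : F0, (y : F0 ⧸ Minf) = (y0 : F0 ⧸ Minf) → R0 ≤ (s n0).ln y := by
      intro y hy
      by_contra hcon
      apply hY
      refine ⟨(y : F0 ⧸ (s n0).M), ?_, hy⟩
      show (s n0).ln y ≤ R0
      omega
    obtain ⟨y, t, _, hyY, C⟩ := first_cfg hs hR0 hMle hxM hx1 hx2 hP0
    have hmk : ∀ v : FreeGroup (Fin 2), fw (x : F0 ⧸ Minf) (ev (x : F0 ⧸ Minf) (y0 : F0 ⧸ Minf) v) =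
        ((fw x (ev x y v) : F0) : F0 ⧸ Minf) := by
      intro v
      have h1 := fw_map (QuotientGroup.mk' Minf) x (ev x y v)
      rw [ev_map] at h1
      rw [← hyY]
      exact h1.symm
    constructor
    · obtain ⟨v, t', _, hP, C'⟩ := hN1 x y t _ hxM (by omega) C
      refine ⟨v, C'.mem, ?_⟩
      rw [hmk]
      obtain ⟨a, ha⟩ := hπ (fw x (ev x y v))
      obtain ⟨k, hk, _⟩ := (hs t').tzs a (by rw [ha]; exact C'.inf) (by rw [ha]; exact C'.len)
        (by rw [ha]; exact C'.fin)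
      rw [hnn2 t' hP] at hk
      rw [← ha, ← hφ, ← map_pow, hNpow _ _ _ _ hk, hφz]
    · obtain ⟨v, t', _, hP, C'⟩ := hN2 x y t _ hxM (by
        have : t % (2 * L0) < 2 * L0 := Nat.mod_lt _ (by omega)
        omega) C
      refine ⟨v, ?_⟩
      rw [hmk]
      intro hone
      obtain ⟨a, ha⟩ := hπ (fw x (ev x y v))
      obtain ⟨k, hk, hpk⟩ := (hs t').tzs a (by rw [ha]; exact C'.inf) (by rw [ha]; exact C'.len)
        (by rw [ha]; exact C'.fin)
      rw [hnn1 t' hP] at hk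
      have e1 := hNpow _ _ _ _ hk
      rw [← ha, ← hφ, ← map_pow] at hone
      have e2 : (a : A0 ⧸ Ninf) ^ p ∈ φ.ker := hone
      rw [hkerφ] at e2
      obtain ⟨l, hl⟩ := e2
      have hl' : (z0 : A0 ⧸ Ninf) ^ l = (a : A0 ⧸ Ninf) ^ p := hl
      rw [pow_two, pow_mul, ← hl', ← zpow_natCast, ← zpow_mul] at e1
      apply hpk
      rw [← hzi e1]
      exact Dvd.intro_left _ rfl
  refine ⟨N1, A0 ⧸ Ninf, F0 ⧸ Minf, inferInstance, inferInstance, φ, (z0 : A0 ⧸ Ninf), ?_⟩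
  refine
    { surj := ?_
      ker := hkerφ
      cen := fun a => (hzc a).eq
      zinf := hzinf
      pw := ?_
      nab := ?_
      one := ?_
      two := ?_ }
  · intro g
    obtain ⟨g, rfl⟩ := QuotientGroup.mk_surjective g
    obtain ⟨a, rfl⟩ := hπ g
    exact ⟨a, rfl⟩
  · intro a ha
    obtain ⟨a, rfl⟩ := QuotientGroup.mk_surjective a
    obtain ⟨n, _, _, hn⟩ := eventually_short hs (π a) 0
    have h1 : π a ∉ (s n).M := by
      intro h
      apply ha
      obtain ⟨k, hk⟩ := hmem0 n a h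
      exact ⟨k, hk.symm⟩
    obtain ⟨m, k, hm, hk, hk2⟩ := (s n).tz a hn h1
    exact ⟨m, k, hm, hNpow n a m k hk, hk2⟩
  · -- the generators do not commute
    refine ⟨((FreeGroup.of 0, 1) : A0), ((FreeGroup.of 1, 1) : A0), ?_⟩
    intro h
    have h' := congrArg φ h
    rw [map_mul, map_mul, hφ, hφ, ← QuotientGroup.mk_mul, ← QuotientGroup.mk_mul] at h'
    obtain ⟨w, hw⟩ : ∃ w : F0, w = (FreeGroup.of 1 * FreeGroup.of 0)⁻¹ *
      (FreeGroup.of 0 * FreeGroup.of 1) := ⟨_, rfl⟩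
    have hw1 : w ∈ Minf := by
      rw [hw]
      exact QuotientGroup.eq.1 h'.symm
    rw [memM] at hw1
    obtain ⟨n, hn⟩ := hw1
    have hln : ∀ n, (s n).ln w ≤ 4 := by
      intro n
      refine ln_le hs (by norm_num) (Nat.zero_le n) ?_
      rw [h0ln, hw]
      have a1 := H0.len_mul (FreeGroup.of (1 : Fin 2) * FreeGroup.of 0)⁻¹
        (FreeGroup.of 0 * FreeGroup.of 1)
      have a2 := H0.len_mul (FreeGroup.of (1 : Fin 2)) (FreeGroup.of 0)
      have a3 := H0.len_mul (FreeGroup.of (0 : Fin 2)) (FreeGroup.of 1)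
      rw [H0.len_inv] at a1
      rw [hlen0, hlen0] at a2 a3
      omega
    have hall : ∀ n, w ∉ (s n).M := by
      intro n
      induction n with
      | zero =>
        intro h0
        have h1 : w = 1 := h0M _ h0
        rw [hw, inv_mul_eq_one] at h1
        exact of_not_commute (show (0 : Fin 2) ≠ 1 by decide) h1.symm
      | succ n ih => exact fun h1 => ih ((hs n).small w ((hln n).trans (by omega)) h1)
    exact hall n hn
  · intro X hX
    obtain ⟨S, hS, hS2⟩ := hboth X hX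
    refine hS.subset ?_
    intro Y hY
    by_contra h
    exact hY (hS2 Y h).1
  · intro X hX
    obtain ⟨S, hS, hS2⟩ := hboth X hX
    refine hS.subset ?_
    intro Y hY
    by_contra h
    exact hY (hS2 Y h).2

end Pool.Agent.Y44.HM
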